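import Pool.Agent.LibMC75.Defs
/-!
ROW [MC X2] (SHORT/MEDIUM, ONLY MATHLIB).  Printed circuits have polynomial size.
PLAN.  Ex.ev_le: induction on e (c for sums and products: add/mul of (N+2)^a, (N+2)^b is ≤ (N+2)^(a+b+1) resp. (N+2)^(a+b); const c ≤ 2^c ≤ (N+2)^c; sub, div, mod are ≤ the
first argument: Nat.sub_le, Nat.div_le_self, Nat.mod_le; var: env.getD k 0 is a member of env or 0).
print_le: induction on P, for all N and env with entries ≤ N.  loop: b.ev env ≤ (N+2)^a =: bound; new variable x < (N+2)^a, so the new environment has entries ≤ N' := (N+2)^a + N,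
N' + 2 ≤ (N+2)^(a+2) (a rough bound), length ≤ Σ_{x < b} (N'+2)^c ≤ (N+2)^a * (N+2)^((a+2)*c) (List.length_flatMap; a list sum bound: List.sum_le_card_nsmul).
-/
namespace LibMC75

private theorem x2_add {M c d x y : ℕ} (hM : 2 ≤ M) (hx : x ≤ M ^ c) (hy : y ≤ M ^ d) :
    x + y ≤ M ^ (c + d + 1) := by
  have h1 : M ^ c ≤ M ^ (c + d) := Nat.pow_le_pow_right (by omega) (by omega)
  have h2 : M ^ d ≤ M ^ (c + d) := Nat.pow_le_pow_right (by omega) (by omega)
  calc x + y ≤ M ^ (c + d) * 2 := by omega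
    _ ≤ M ^ (c + d) * M := Nat.mul_le_mul_left _ hM
    _ = M ^ (c + d + 1) := by rw [pow_succ]

theorem Ex.ev_le (e : Ex) : ∃ c : ℕ, ∀ (N : ℕ) (env : List ℕ), (∀ x ∈ env, x ≤ N) →
    e.ev env ≤ (N + 2) ^ c := by
  induction e with
  | var k =>
    refine ⟨1, fun N env h => ?_⟩
    have h1 : env.getD k 0 ≤ N := by
      by_cases hk : k < env.length
      · rw [List.getD_eq_getElem _ _ hk]
        exact h _ (List.getElem_mem hk)
      · rw [List.getD_eq_default _ _ (by omega)]
        exact Nat.zero_le _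
    simp only [Ex.ev, pow_one]
    omega
  | const c =>
    refine ⟨c, fun N env h => ?_⟩
    calc c ≤ 2 ^ c := Nat.lt_two_pow_self.le
      _ ≤ (N + 2) ^ c := Nat.pow_le_pow_left (by omega) c
  | add a b ha hb =>
    obtain ⟨c, hc⟩ := ha
    obtain ⟨d, hd⟩ := hb
    exact ⟨c + d + 1, fun N env h => x2_add (by omega) (hc N env h) (hd N env h)⟩
  | sub a b ha hb =>
    obtain ⟨c, hc⟩ := ha
    exact ⟨c, fun N env h => (Nat.sub_le _ _).trans (hc N env h)⟩
  | mul a b ha hb =>
    obtain ⟨c, hc⟩ := ha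
    obtain ⟨d, hd⟩ := hb
    refine ⟨c + d, fun N env h => ?_⟩
    rw [pow_add]
    exact Nat.mul_le_mul (hc N env h) (hd N env h)
  | div a b ha hb =>
    obtain ⟨c, hc⟩ := ha
    exact ⟨c, fun N env h => (Nat.div_le_self _ _).trans (hc N env h)⟩
  | mod a b ha hb =>
    obtain ⟨c, hc⟩ := ha
    exact ⟨c, fun N env h => (Nat.mod_le _ _).trans (hc N env h)⟩

theorem print_le (P : Prog) : ∃ c : ℕ, ∀ (N : ℕ) (env : List ℕ), (∀ x ∈ env, x ≤ N) →
    (P.print env).length ≤ (N + 2) ^ c := by
  induction P with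
  | skip => exact ⟨0, fun N env h => by simp [Prog.print]⟩
  | comp a b => exact ⟨0, fun N env h => by simp [Prog.print]⟩
  | seq P Q hP hQ =>
    obtain ⟨c, hc⟩ := hP
    obtain ⟨d, hd⟩ := hQ
    refine ⟨c + d + 1, fun N env h => ?_⟩
    simp only [Prog.print, List.length_append]
    exact x2_add (by omega) (hc N env h) (hd N env h)
  | loop b P hP =>
    obtain ⟨a, ha⟩ := b.ev_le
    obtain ⟨c, hc⟩ := hP
    refine ⟨a + (a + 2) * c, fun N env h => ?_⟩
    have hb := ha N env h
    simp only [Prog.print, List.length_flatMap]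
    have h1 : ∀ n ∈ (List.range (b.ev env)).map (fun x => (P.print (x :: env)).length),
        n ≤ (N + 2) ^ ((a + 2) * c) := by
      intro n hn
      rw [List.mem_map] at hn
      obtain ⟨x, hx, rfl⟩ := hn
      rw [List.mem_range] at hx
      refine (hc ((N + 2) ^ a + N) (x :: env) ?_).trans ?_
      · intro z hz
        rw [List.mem_cons] at hz
        rcases hz with rfl | hz
        · omega
        · have := h z hz
          omega
      · rw [pow_mul]
        refine Nat.pow_le_pow_left ?_ c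
        have h2 : 1 ≤ (N + 2) ^ a := Nat.one_le_pow _ _ (by omega)
        have h3 : N + 2 ≤ (N + 2) ^ a * (N + 2) := Nat.le_mul_of_pos_left _ (by omega)
        calc (N + 2) ^ a + N + 2 ≤ (N + 2) ^ a + (N + 2) ^ a * (N + 2) := by omega
          _ = (N + 2) ^ a * (N + 3) := by ring
          _ ≤ (N + 2) ^ a * ((N + 2) ^ 2) := Nat.mul_le_mul_left _ (by nlinarith)
          _ = (N + 2) ^ (a + 2) := by rw [pow_add]
    have h4 := List.sum_le_card_nsmul _ _ h1
    rw [List.length_map, List.length_range, smul_eq_mul] at h4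
    refine h4.trans ?_
    rw [pow_add]
    exact Nat.mul_le_mul_right _ hb

end LibMC75
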