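import Pool.Agent.LibMC75.Net
/-!
ROW [MC A1] (SHORT, ONLY MATHLIB).  kap = z/(n+1) + (W+1)*(z%(n+1)).  If z%(n+1) ≠ 0 then kap ≥ W+1 > v, and (n+1)*v = z is
impossible; if z%(n+1) = 0 then kap = z/(n+1) and v = z/(n+1) ↔ (n+1)*v = z.
-/
namespace LibMC75

theorem act_iff (n W : ℕ) (v : ℕ → ℕ → ℕ) (i q : ℕ) (hv : v i (jj n W q) ≤ W) :
    act n W v i q = true ↔ (n + 1) * v i (jj n W q) = zz n W q := by
  unfold act kap
  rw [decide_eq_true_iff]
  generalize v i (jj n W q) = x at hv ⊢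
  generalize zz n W q = z
  have h1 := Nat.div_add_mod z (n + 1)
  rcases Nat.eq_zero_or_pos (z % (n + 1)) with h0 | h0
  · rw [h0, Nat.mul_zero, Nat.add_zero]
    rw [h0, Nat.add_zero] at h1
    constructor
    · intro h
      rw [h, h1]
    · intro h
      exact Nat.eq_of_mul_eq_mul_left (Nat.succ_pos n) (h.trans h1.symm)
  · constructor
    · intro h
      have h2 : W + 1 ≤ (W + 1) * (z % (n + 1)) := Nat.le_mul_of_pos_right _ h0
      exact absurd (h ▸ (h2.trans (Nat.le_add_left _ _)) : W + 1 ≤ x) (by omega)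
    · intro h
      rw [← h, Nat.mul_mod_right] at h0
      exact absurd h0 (lt_irrefl 0)

end LibMC75
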