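import Pool.Agent.LibMC75.Net

/-!
# First lemmas on `run`
-/

namespace LibMC75

theorem run_nil (s : Wire → Bool) : run [] s = s := rfl

theorem run_cons (g : Wire × Wire) (gs : List (Wire × Wire)) (s : Wire → Bool) :
    run (g :: gs) s = run gs (step s g) := rfl

theorem run_append (g h : List (Wire × Wire)) (s : Wire → Bool) :
    run (g ++ h) s = run h (run g s) := by
  simp [run, List.foldl_append]

/-- a wire which is not touched keeps its value -/
theorem run_frame (gs : List (Wire × Wire)) (s : Wire → Bool) (w : Wire)
    (h : ∀ g ∈ gs, g.1 ≠ w ∧ g.2 ≠ w) : run gs s w = s w := by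
  induction gs generalizing s with
  | nil => rfl
  | cons g gs ih =>
    rw [run_cons, ih _ (fun g' hg' => h g' (List.mem_cons_of_mem _ hg'))]
    have := h g List.mem_cons_self
    simp [step, this.1.symm, this.2.symm]

/-- induction over a for-loop -/
theorem run_range_induction (f : ℕ → List (Wire × Wire)) (P : ℕ → (Wire → Bool) → Prop)
    (L : ℕ) (s : Wire → Bool) (h0 : P 0 s)
    (hs : ∀ q < L, ∀ s, P q s → P (q + 1) (run (f q) s)) :
    P L (run ((List.range L).flatMap f) s) := by
  induction L with
  | zero => simpa [run_nil] using h0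
  | succ L ih =>
    rw [List.range_succ, List.flatMap_append, run_append]
    have := hs L (Nat.lt_succ_self L) _ (ih fun q hq => hs q (Nat.lt_succ_of_lt hq))
    simpa using this

/-- one contract -/
theorem run_blk (n W : ℕ) (p : List ℕ) (t i q : ℕ) (s : Wire → Bool) (e : Bool)
    (hE : s (wE n W p t i q) = e) (hN : s (wN n W p t i q) = !e) (w : Wire)
    (hwE : w ≠ wE n W p t i q) (hwN : w ≠ wN n W p t i q) :
    run (blk n W p t i q) s w =
      if w = wA p t i then
        s (wA p t i) && (s (wY p (jj n W q) (rr n W i q + (TT n W - t))) || !e)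
      else if w = wY p (jj n W q) (rr n W i q + (TT n W - t)) then
        s (wY p (jj n W q) (rr n W i q + (TT n W - t))) || (s (wA p t i) && e)
      else s w := by
  have h1 : wA p t i ≠ wE n W p t i q := by simp [wA, wE]
  have h2 : wA p t i ≠ wN n W p t i q := by simp [wA, wN]
  have h3 : wA p t i ≠ wY p (jj n W q) (rr n W i q + (TT n W - t)) := by simp [wA, wY]
  have h4 : wE n W p t i q ≠ wN n W p t i q := by simp [wE, wN]
  have h5 : wE n W p t i q ≠ wY p (jj n W q) (rr n W i q + (TT n W - t)) := by simp [wE, wY]
  have h6 : wN n W p t i q ≠ wY p (jj n W q) (rr n W i q + (TT n W - t)) := by simp [wN, wY]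
  generalize hA' : wA p t i = A at *
  generalize hE' : wE n W p t i q = E at *
  generalize hN' : wN n W p t i q = N at *
  generalize hY' : wY p (jj n W q) (rr n W i q + (TT n W - t)) = Y at *
  have hb : blk n W p t i q = [(A, E), (A, Y), (E, N), (E, A)] := by
    simp [blk, hA', hE', hN', hY']
  rw [hb]
  simp only [run, List.foldl, step]
  by_cases hwA : w = A
  · subst hwA
    simp only [h1, h2, h3, h4, h1.symm, h2.symm, h3.symm, h4.symm, h5, h5.symm, h6, h6.symm,
      if_true, if_false, hE, hN, ite_true, ite_false]
    cases s w <;> cases s Y <;> cases e <;> rfl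
  · by_cases hwY : w = Y
    · subst hwY
      simp only [h1, h2, h3, h4, h1.symm, h2.symm, h3.symm, h4.symm, h5, h5.symm, h6, h6.symm,
        if_true, if_false, hE, hN, ite_true, ite_false]
      cases s w <;> cases s A <;> cases e <;> rfl
    · simp only [hwA, hwY, hwE, hwN, if_false, ite_false]

end LibMC75
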