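import Pool.Agent.LibMC75.G1
/-!
ROW [MC C1] (MEDIUM).  The decision circuit.
PLAN.  counter: a token x and the unary counter z_h = [h < c] on the wires .zero [h], h < K: after the chain of comparators (x, z_0), (x, z_1), ...: z_h = [h < c + x].
run_range_induction with P h0 s: s(x) = s0(x) && decide (h0 ≤ c); ∀ h < h0, s(z_h) = decide (h < c + toNat x); ∀ h ≥ h0 (h < K), s(z_h) = decide (h < c); all other wires
unchanged.  (x is a wire different from all .zero [h], e.g. of the form .one _.)
dec_spec: three nested run_range_induction (i, q, m) with the predicate: s (.zero [h]) = decide (h < c) for all h < K, c = the partial sum so far, and every wire whose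
name does not begin with a treated (i,q,m) and is not a .zero [h] still carries init.  Convenient invariant for the wires: ∀ w, (∀ h, w ≠ .zero [h]) → (∀ c' i' q' m',
(i',q',m') treated → w.pre.take 4 ≠ [c',i',q',m']) → s w = w.init v.  The partial sum: Σ_{i'<i} Σ_{q'<LL} (if sel then kap else 0) + Σ_{q'<q} (..) + m * (if sel i q then 1 else 0).
-/
namespace LibMC75

private lemma step_fst (s : Wire → Bool) (a b : Wire) : step s (a, b) a = (s a && s b) := by
  simp [step]

private lemma step_snd (s : Wire → Bool) {a b : Wire} (h : b ≠ a) :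
    step s (a, b) b = (s a || s b) := by
  simp [step, h]

private lemma step_other (s : Wire → Bool) {a b w : Wire} (h1 : w ≠ a) (h2 : w ≠ b) :
    step s (a, b) w = s w := by
  simp [step, h1, h2]

theorem counter (K : ℕ) (l : List ℕ) (s : Wire → Bool) (c : ℕ)
    (hz : ∀ h < K, s (.zero [h]) = decide (h < c)) :
    (∀ h < K, run ((List.range K).flatMap fun h => [(Wire.one l, Wire.zero [h])]) s (.zero [h]) =
      decide (h < c + (s (.one l)).toNat)) ∧
    ∀ w : Wire, w ≠ .one l → (∀ h, w ≠ .zero [h]) →
      run ((List.range K).flatMap fun h => [(Wire.one l, Wire.zero [h])]) s w = s w := by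
  have key := run_range_induction (fun h => [(Wire.one l, Wire.zero [h])])
    (fun h0 s' => s' (.one l) = (s (.one l) && decide (h0 ≤ c)) ∧
      (∀ h < K, s' (.zero [h]) = if h < h0 then decide (h < c + (s (.one l)).toNat)
        else decide (h < c)) ∧
      ∀ w : Wire, w ≠ .one l → (∀ h, w ≠ .zero [h]) → s' w = s w) K s
    ⟨by simp, fun h hh => by simp [hz h hh], fun w _ _ => rfl⟩ (by
      rintro q hq s' ⟨h1, h2, h3⟩
      rw [run_cons, run_nil]
      have e2 := h2 q hq
      rw [if_neg (lt_irrefl _)] at e2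
      refine ⟨?_, ?_, ?_⟩
      · rw [step_fst, h1, e2, Bool.and_assoc]
        congr 1
        rw [← Bool.decide_and]
        exact decide_eq_decide.2 (by omega)
      · intro h hh
        by_cases hhq : h = q
        · subst hhq
          rw [step_snd s' (by simp), h1, e2, if_pos (Nat.lt_succ_self _)]
          cases s (.one l)
          · simp
          · simp only [Bool.true_and, Bool.toNat_true, ← Bool.decide_or]
            exact decide_eq_decide.2 (by omega)
        · rw [step_other s' (by simp) (by simp [hhq]), h2 h hh]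
          by_cases h4 : h < q
          · rw [if_pos h4, if_pos (by omega)]
          · rw [if_neg h4, if_neg (by omega)]
      · intro w hw1 hw2
        rw [step_other s' hw1 (hw2 q)]
        exact h3 w hw1 hw2)
  obtain ⟨-, k2, k3⟩ := key
  refine ⟨fun h hh => ?_, k3⟩
  rw [k2 h hh, if_pos hh]

/-- the invariant of the decision circuit: `T` is the set of the treated triples -/
private def Inv (K : ℕ) (v : ℕ → ℕ → ℕ) (T : ℕ → ℕ → ℕ → Prop) (c : ℕ) (s : Wire → Bool) :
    Prop :=
  (∀ h < K, s (.zero [h]) = decide (h < c)) ∧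
  ∀ w : Wire, (∀ h, w ≠ .zero [h]) →
    (∀ c' i' q' m', T i' q' m' → w.pre.take 4 ≠ [c', i', q', m']) → s w = w.init v

private lemma Inv.mono {K : ℕ} {v : ℕ → ℕ → ℕ} {T T' : ℕ → ℕ → ℕ → Prop} {c c' : ℕ}
    {s : Wire → Bool} (h : Inv K v T c s) (hT : ∀ i q m, T i q m → T' i q m) (hc : c = c') :
    Inv K v T' c' s := by
  subst hc
  exact ⟨h.1, fun w hw hw' => h.2 w hw fun c' i' q' m' ht => hw' c' i' q' m' (hT _ _ _ ht)⟩

private lemma inv_step {n W K : ℕ} {v : ℕ → ℕ → ℕ} {T : ℕ → ℕ → ℕ → Prop} {c i q m : ℕ}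
    (hi : i < n) (hq : q < LL n W) (hT : ¬ T i q m) {s : Wire → Bool} (h : Inv K v T c s) :
    Inv K v (fun i' q' m' => T i' q' m' ∨ (i' = i ∧ q' = q ∧ m' = m))
      (c + (sel n W v i q).toNat)
      (run (gad n W i q m ++ (List.range K).flatMap fun h => [(tok n W i q m, Wire.zero [h])]) s) := by
  obtain ⟨h1, h2⟩ := h
  rw [run_append]
  have hz : ∀ h, run (gad n W i q m) s (.zero [h]) = s (.zero [h]) := by
    intro h
    apply gad_frame
    intro c'
    simp [Wire.pre]
  have htok : run (gad n W i q m) s (tok n W i q m) = sel n W v i q := by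
    apply gad_spec n W v i q m hi hq s
    rintro w ⟨c', hc'⟩
    apply h2
    · rintro h rfl
      simp [Wire.pre] at hc'
    · rintro c'' i' q' m' ht he
      rw [hc'] at he
      simp only [List.cons.injEq, and_true] at he
      obtain ⟨-, rfl, rfl, rfl⟩ := he
      exact hT ht
  have hc := counter K ([0, i, q, m] ++ [TT n W, i]) (run (gad n W i q m) s) c
    (fun h hh => by rw [hz, h1 h hh])
  have et : Wire.one ([0, i, q, m] ++ [TT n W, i]) = tok n W i q m := rfl
  rw [et, htok] at hc
  refine ⟨hc.1, ?_⟩
  intro w hw hw'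
  have hne : w ≠ tok n W i q m := by
    rintro rfl
    exact hw' 0 i q m (Or.inr ⟨rfl, rfl, rfl⟩) (by simp [tok, wA, Wire.pre])
  rw [hc.2 w hne hw, gad_frame n W i q m s w fun c' => hw' c' i q m (Or.inr ⟨rfl, rfl, rfl⟩)]
  exact h2 w hw fun c' i' q' m' ht => hw' c' i' q' m' (Or.inl ht)

private lemma inv_m {n W K : ℕ} {v : ℕ → ℕ → ℕ} {T : ℕ → ℕ → ℕ → Prop} {c i q : ℕ}
    (hi : i < n) (hq : q < LL n W) (hT : ∀ m, ¬ T i q m) {s : Wire → Bool} (h : Inv K v T c s) :
    Inv K v (fun i' q' m' => T i' q' m' ∨ (i' = i ∧ q' = q))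
      (c + if sel n W v i q = true then kap n W q else 0)
      (run ((List.range (kap n W q)).flatMap fun m =>
        gad n W i q m ++ (List.range K).flatMap fun h => [(tok n W i q m, Wire.zero [h])]) s) := by
  have key := run_range_induction (fun m => gad n W i q m ++
      (List.range K).flatMap fun h => [(tok n W i q m, Wire.zero [h])])
    (fun m s' => Inv K v (fun i' q' m' => T i' q' m' ∨ (i' = i ∧ q' = q ∧ m' < m))
      (c + m * (sel n W v i q).toNat) s') (kap n W q) s
    (h.mono (fun _ _ _ ht => Or.inl ht) (by simp)) (by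
      intro m hm s' hs'
      refine (inv_step hi hq (m := m) ?_ hs').mono ?_ (by ring)
      · rintro (ht | ⟨-, -, ht⟩)
        · exact hT m ht
        · exact lt_irrefl _ ht
      · rintro i' q' m' ((ht | ⟨e1, e2, e3⟩) | ⟨e1, e2, e3⟩)
        · exact Or.inl ht
        · exact Or.inr ⟨e1, e2, by omega⟩
        · exact Or.inr ⟨e1, e2, by omega⟩)
  refine key.mono ?_ ?_
  · rintro i' q' m' (ht | ⟨e1, e2, -⟩)
    · exact Or.inl ht
    · exact Or.inr ⟨e1, e2⟩
  · cases sel n W v i q <;> simp

private lemma inv_q {n W K : ℕ} {v : ℕ → ℕ → ℕ} {T : ℕ → ℕ → ℕ → Prop} {c i : ℕ}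
    (hi : i < n) (hT : ∀ q m, ¬ T i q m) {s : Wire → Bool} (h : Inv K v T c s) :
    Inv K v (fun i' q' m' => T i' q' m' ∨ i' = i)
      (c + ∑ q ∈ Finset.range (LL n W), if sel n W v i q = true then kap n W q else 0)
      (run ((List.range (LL n W)).flatMap fun q => (List.range (kap n W q)).flatMap fun m =>
        gad n W i q m ++ (List.range K).flatMap fun h => [(tok n W i q m, Wire.zero [h])]) s) := by
  have key := run_range_induction (fun q => (List.range (kap n W q)).flatMap fun m =>
        gad n W i q m ++ (List.range K).flatMap fun h => [(tok n W i q m, Wire.zero [h])])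
    (fun q s' => Inv K v (fun i' q' m' => T i' q' m' ∨ (i' = i ∧ q' < q))
      (c + ∑ q' ∈ Finset.range q, if sel n W v i q' = true then kap n W q' else 0) s') (LL n W) s
    (h.mono (fun _ _ _ ht => Or.inl ht) (by simp)) (by
      intro q hq s' hs'
      refine (inv_m hi hq ?_ hs').mono ?_ ?_
      · rintro m (ht | ⟨-, ht⟩)
        · exact hT q m ht
        · exact lt_irrefl _ ht
      · rintro i' q' m' ((ht | ⟨e1, e2⟩) | ⟨e1, e2⟩)
        · exact Or.inl ht
        · exact Or.inr ⟨e1, by omega⟩
        · exact Or.inr ⟨e1, by omega⟩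
      · rw [Finset.sum_range_succ, add_assoc])
  refine key.mono ?_ rfl
  rintro i' q' m' (ht | ⟨e1, -⟩)
  · exact Or.inl ht
  · exact Or.inr e1

theorem dec_spec (n W K : ℕ) (v : ℕ → ℕ → ℕ) (hK : 1 ≤ K) :
    run (dec n W K) (Wire.init v) (.zero [K - 1]) = true ↔
    K ≤ ∑ i ∈ Finset.range n, ∑ q ∈ Finset.range (LL n W),
      (if sel n W v i q = true then kap n W q else 0) := by
  have key := run_range_induction (fun i => (List.range (LL n W)).flatMap fun q =>
        (List.range (kap n W q)).flatMap fun m =>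
        gad n W i q m ++ (List.range K).flatMap fun h => [(tok n W i q m, Wire.zero [h])])
    (fun i s' => Inv K v (fun i' q' m' => i' < i)
      (∑ i' ∈ Finset.range i, ∑ q ∈ Finset.range (LL n W),
        if sel n W v i' q = true then kap n W q else 0) s') n (Wire.init v)
    ⟨fun h _ => by simp [Wire.init], fun w _ _ => rfl⟩ (by
      intro i hi s' hs'
      refine (inv_q hi ?_ hs').mono ?_ ?_
      · rintro q m ht
        exact lt_irrefl _ ht
      · rintro i' q' m' (ht | ht) <;> omega
      · rw [Finset.sum_range_succ])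
  have h1 := key.1 (K - 1) (by omega)
  have h2 : run (dec n W K) (Wire.init v) (.zero [K - 1]) = decide (K - 1 < ∑ i ∈ Finset.range n,
      ∑ q ∈ Finset.range (LL n W), if sel n W v i q = true then kap n W q else 0) := h1
  rw [h2, decide_eq_true_eq]
  omega

end LibMC75
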