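import Mathlib

/-!
# Comparator circuits printed by nests of for-loops; bipartite matching
-/

namespace LibMC75

/-- A wire.  It starts with a constant bit (`zero`, `one`) or with a literal of the input
`v` (`pos i j k`: the bit `[v i j = k]`; `neg i j k`: the bit `[v i j ≠ k]`).  The list is only
a name, so that several wires may start with the same bit. -/
inductive Wire
  | zero (name : List ℕ)
  | one (name : List ℕ)
  | pos (i j k : ℕ) (name : List ℕ)
  | neg (i j k : ℕ) (name : List ℕ)

noncomputable instance : DecidableEq Wire := Classical.decEq _

/-- The bit with which a wire starts, on the input `v`. -/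
def Wire.init (v : ℕ → ℕ → ℕ) : Wire → Bool
  | .zero _ => false
  | .one _ => true
  | .pos i j k _ => decide (v i j = k)
  | .neg i j k _ => !decide (v i j = k)

/-- One comparator on the wires `g.1` and `g.2`: afterwards `g.1` carries the AND and
`g.2` carries the OR of the two bits; the other wires are unchanged. -/
noncomputable def step (s : Wire → Bool) (g : Wire × Wire) : Wire → Bool :=
  fun w => if w = g.1 then s g.1 && s g.2 else if w = g.2 then s g.1 || s g.2 else s w

/-- A comparator circuit is a list of comparators, applied one after the other. -/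
noncomputable def run (gs : List (Wire × Wire)) (s : Wire → Bool) : Wire → Bool := gs.foldl step s

/-- Arithmetic expressions in variables `x₀, x₁, …`. -/
inductive Ex
  | var (k : ℕ)
  | const (c : ℕ)
  | add (a b : Ex)
  | sub (a b : Ex)
  | mul (a b : Ex)
  | div (a b : Ex)
  | mod (a b : Ex)

/-- The value of an expression; the environment lists the values of `x₀, x₁, …`. -/
def Ex.ev (env : List ℕ) : Ex → ℕ
  | .var k => env.getD k 0
  | .const c => c
  | .add a b => a.ev env + b.ev env
  | .sub a b => a.ev env - b.ev env
  | .mul a b => a.ev env * b.ev env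
  | .div a b => a.ev env / b.ev env
  | .mod a b => a.ev env % b.ev env

/-- A wire whose indices and name are given by expressions. -/
inductive WEx
  | zero (name : List Ex)
  | one (name : List Ex)
  | pos (i j k : Ex) (name : List Ex)
  | neg (i j k : Ex) (name : List Ex)

/-- The wire named by a `WEx` in an environment. -/
def WEx.ev (env : List ℕ) : WEx → Wire
  | .zero l => .zero (l.map (Ex.ev env))
  | .one l => .one (l.map (Ex.ev env))
  | .pos i j k l => .pos (i.ev env) (j.ev env) (k.ev env) (l.map (Ex.ev env))
  | .neg i j k l => .neg (i.ev env) (j.ev env) (k.ev env) (l.map (Ex.ev env))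

/-- Programs that print comparator circuits: print nothing, print one comparator, run one
program after another, and `loop b P`, that is `for x = 0, 1, …, b - 1 do P`, where inside `P`
the new variable `x` is `x₀` and the old variables are shifted by one. -/
inductive Prog
  | skip
  | comp (a b : WEx)
  | seq (P Q : Prog)
  | loop (b : Ex) (P : Prog)

/-- The comparator circuit printed by a program. -/
def Prog.print : Prog → List ℕ → List (Wire × Wire)
  | .skip, _ => []
  | .comp a b, env => [(a.ev env, b.ev env)]
  | .seq P Q, env => P.print env ++ Q.print env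
  | .loop b P, env => (List.range (b.ev env)).flatMap fun x => P.print (x :: env)

/-- A matching of the complete bipartite graph on `{0, …, n-1}` and `{0, …, n-1}`. -/
def IsMatching (n : ℕ) (M : Finset (ℕ × ℕ)) : Prop :=
  (∀ e ∈ M, e.1 < n ∧ e.2 < n) ∧
  (∀ e ∈ M, ∀ f ∈ M, e.1 = f.1 → e = f) ∧
  (∀ e ∈ M, ∀ f ∈ M, e.2 = f.2 → e = f)

/-- The weight of a set of pairs. -/
def weight (v : ℕ → ℕ → ℕ) (M : Finset (ℕ × ℕ)) : ℕ := ∑ e ∈ M, v e.1 e.2

end LibMC75
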