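import Pool.Agent.LibMC75.Net
/-!
ROW [MC F1] (MEDIUM, ONLY MATHLIB).  Monotone iteration reaches its fixed point on the grid {0..n-1} x {0..LL-1} after n*LL rounds.
PLAN.  (a) FF is monotone in Y (acc is: decide (∀ q' < q, Y .. = true ∨ ..)); so Yt t j r = true → Yt (t+1) j r = true for ALL t, j, r
(induction on t; Yt 0 = false).
(b) locality: if Y and Y' agree on the grid (j < n, r < LL) then FF Y and FF Y' agree on the grid.  For (j, r+1) in the grid FF reads
Y j r and acc at (jj r, rr j r), which reads Y at (jj q', rr (jj r) q') for q' < rr j r; here jj _ < n, and rr _ q' < LL by `rr_lt`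
(given as hypothesis h1 below so that the row needs nothing else; rr j r < LL).
(c) cnt t := card of {(j,r) in the grid : Yt t j r = true} ≤ n*LL = TT; it increases; if cnt t = cnt (t+1) then Yt t = Yt (t+1) on the
grid, hence (b) Yt t' = Yt t on the grid for all t' ≥ t.  So there is t ≤ TT with Yt t = Yt (t+1) on the grid (otherwise cnt (TT+1) ≥ TT+1),
hence Yt (TT+1) = Yt TT on the grid.
-/
namespace LibMC75

private theorem F1_acc_mono (n W : ℕ) (v : ℕ → ℕ → ℕ) (Y Y' : ℕ → ℕ → Bool)
    (h : ∀ j r, Y j r = true → Y' j r = true) (i q : ℕ) (ha : acc n W v Y i q = true) :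
    acc n W v Y' i q = true := by
  unfold acc at *
  rw [decide_eq_true_iff] at *
  intro q' hq'
  rcases ha q' hq' with h1 | h1
  · exact Or.inl (h _ _ h1)
  · exact Or.inr h1

private theorem F1_FF_mono (n W : ℕ) (v : ℕ → ℕ → ℕ) (Y Y' : ℕ → ℕ → Bool)
    (h : ∀ j r, Y j r = true → Y' j r = true) (j r : ℕ) (hF : FF n W v Y j r = true) :
    FF n W v Y' j r = true := by
  cases r with
  | zero => simp [FF] at hF
  | succ r =>
    simp only [FF, outY, Bool.or_eq_true, Bool.and_eq_true] at *
    rcases hF with h1 | ⟨h1, h2⟩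
    · exact Or.inl (h _ _ h1)
    · exact Or.inr ⟨F1_acc_mono n W v Y Y' h _ _ h1, h2⟩

theorem Yt_mono (n W : ℕ) (v : ℕ → ℕ → ℕ) (t j r : ℕ) (h : Yt n W v t j r = true) :
    Yt n W v (t + 1) j r = true := by
  induction t generalizing j r with
  | zero => simp [Yt] at h
  | succ t ih => exact F1_FF_mono n W v _ _ (fun j r => ih j r) j r h

private theorem F1_local (n W : ℕ) (v : ℕ → ℕ → ℕ) (Y Y' : ℕ → ℕ → Bool)
    (h1 : ∀ i q, i < n → q < LL n W → rr n W i q < LL n W)
    (h : ∀ j r, j < n → r < LL n W → Y j r = Y' j r)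
    (j r : ℕ) (hj : j < n) (hr : r < LL n W) : FF n W v Y j r = FF n W v Y' j r := by
  cases r with
  | zero => rfl
  | succ r =>
    have hr' : r < LL n W := by omega
    have hn : 0 < n := by omega
    have hjj : ∀ q, jj n W q < n := fun q => Nat.mod_lt _ hn
    have hacc : acc n W v Y (jj n W r) (rr n W j r) = acc n W v Y' (jj n W r) (rr n W j r) := by
      have e : ∀ q' < rr n W j r, Y (jj n W q') (rr n W (jj n W r) q') =
          Y' (jj n W q') (rr n W (jj n W r) q') := by
        intro q' hq'
        exact h _ _ (hjj q') (h1 _ _ (hjj r) (hq'.trans (h1 j r hj hr')))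
      unfold acc
      apply decide_eq_decide.mpr
      constructor
      · intro hh q' hq'
        rw [← e q' hq']
        exact hh q' hq'
      · intro hh q' hq'
        rw [e q' hq']
        exact hh q' hq'
    simp only [FF, outY]
    rw [hacc, h j r hj hr']

private def F1_S (n W : ℕ) (v : ℕ → ℕ → ℕ) (t : ℕ) : Finset (ℕ × ℕ) :=
  (Finset.range n ×ˢ Finset.range (LL n W)).filter fun e => Yt n W v t e.1 e.2 = true

private theorem F1_S_sub (n W : ℕ) (v : ℕ → ℕ → ℕ) (t : ℕ) : F1_S n W v t ⊆ F1_S n W v (t + 1) := by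
  intro e he
  unfold F1_S at *
  rw [Finset.mem_filter] at *
  exact ⟨he.1, Yt_mono n W v t e.1 e.2 he.2⟩

private theorem F1_agree (n W : ℕ) (v : ℕ → ℕ → ℕ) (t : ℕ) (h : F1_S n W v t = F1_S n W v (t + 1))
    (j r : ℕ) (hj : j < n) (hr : r < LL n W) : Yt n W v t j r = Yt n W v (t + 1) j r := by
  have hm : ∀ s, ((j, r) ∈ F1_S n W v s ↔ Yt n W v s j r = true) := by
    intro s
    unfold F1_S
    rw [Finset.mem_filter, Finset.mem_product, Finset.mem_range, Finset.mem_range]
    simp [hj, hr]
  rw [Bool.eq_iff_iff, ← hm t, ← hm (t + 1), h]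

theorem Yt_fix (n W : ℕ) (v : ℕ → ℕ → ℕ)
    (h1 : ∀ i q, i < n → q < LL n W → rr n W i q < LL n W)
    (j r : ℕ) (hj : j < n) (hr : r < LL n W) :
    FF n W v (Yt n W v (TT n W)) j r = Yt n W v (TT n W) j r := by
  -- a stationary round
  have hst : ∃ t ≤ TT n W, F1_S n W v t = F1_S n W v (t + 1) := by
    by_contra hcon
    push Not at hcon
    have hc : ∀ t ≤ TT n W + 1, t ≤ (F1_S n W v t).card := by
      intro t
      induction t with
      | zero => intro _; omega
      | succ t ih =>
        intro ht
        have h2 := ih (by omega)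
        have h3 : F1_S n W v t ⊂ F1_S n W v (t + 1) :=
          (F1_S_sub n W v t).ssubset_of_ne (hcon t (by omega))
        have := Finset.card_lt_card h3
        omega
    have h4 := hc (TT n W + 1) le_rfl
    have h5 : (F1_S n W v (TT n W + 1)).card ≤ TT n W := by
      refine (Finset.card_filter_le _ _).trans ?_
      rw [Finset.card_product, Finset.card_range, Finset.card_range]
      exact le_of_eq rfl
    omega
  obtain ⟨t, ht, hS⟩ := hst
  have hall : ∀ k, ∀ j r, j < n → r < LL n W → Yt n W v (t + k) j r = Yt n W v (t + k + 1) j r := by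
    intro k
    induction k with
    | zero => exact fun j r hj hr => F1_agree n W v t hS j r hj hr
    | succ k ih =>
      intro j r hj hr
      exact F1_local n W v _ _ h1 (fun j r hj hr => ih j r hj hr) j r hj hr
  have := hall (TT n W - t) j r hj hr
  rw [show t + (TT n W - t) = TT n W by omega] at this
  exact this.symm

end LibMC75
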