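import Pool.Agent.LibMC75.P1
/-!
ROW [MC F2] (MEDIUM).  At a fixed point the selected contracts form a kernel.  Everything about phi : (i,q) ↦ (jj q, rr i q) is in P1
(involution on the grid).  Write Y = Yt TT.
PLAN.  (a) fix: for j < n, r < LL: Y j r = true ↔ ∃ r' < r, acc Y (jj r') (rr j r') = true ∧ act (jj r') (rr j r') = true: induction on r by hfix
(FF Y j 0 = false, FF Y j (r+1) = Y j r || (acc .. && act ..)).
(b) sel_man: acc at q' needs Y (jj q) (rr i q) = true or act i q = false, but sel i q says the opposite.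
(c) sel_woman: r := rr i q, r' := rr i' q' (both < LL), j := jj q = jj q'.  If r < r': by (a) Y j r' = true (the contract at (j,r) is
(jj r, rr j r) = (i, q) by jj_rr, rr_rr, and acc, act hold): contradiction to sel i' q'.  Symmetric.  So r = r', and i = jj r = i', q = rr j r = q'.
(d) sel_stab: if acc Y i q = false: there is q' < q with Y (jj q') (rr i q') = false and act i q' = true; take the SMALLEST such q' (Nat.find): then acc Y i q'
= true, so sel i q'.  If acc Y i q = true and Y (jj q) (rr i q) = false: sel i q itself (q' = q).  If Y (jj q) (rr i q) = true: by (a) there is r' < rr i q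
with acc and act at (jj r', rr j r'); take the SMALLEST such r': then Y j r' = false by (a), so (i', q') := (jj r', rr j r') is selected; it has jj q' = j and
rr i' q' = r' by jj_rr, rr_rr (applied to (j, r')).
-/
namespace LibMC75

variable (n W : ℕ) (v : ℕ → ℕ → ℕ)

private theorem f2_sel (i q : ℕ) : sel n W v i q = true ↔ act n W v i q = true ∧
    acc n W v (Yt n W v (TT n W)) i q = true ∧ Yt n W v (TT n W) (jj n W q) (rr n W i q) = false := by
  unfold sel
  rw [Bool.and_eq_true, Bool.and_eq_true, Bool.not_eq_true']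

private theorem f2_acc (Y : ℕ → ℕ → Bool) (i q : ℕ) : acc n W v Y i q = true ↔
    ∀ q' < q, Y (jj n W q') (rr n W i q') = true ∨ act n W v i q' = false := by
  unfold acc
  rw [decide_eq_true_eq]

private theorem f2_fix (Y : ℕ → ℕ → Bool) (hfix : ∀ j r, j < n → r < LL n W → FF n W v Y j r = Y j r)
    (j : ℕ) (hj : j < n) : ∀ r, r < LL n W → (Y j r = true ↔
      ∃ r' < r, acc n W v Y (jj n W r') (rr n W j r') = true ∧ act n W v (jj n W r') (rr n W j r') = true) := by
  intro r
  induction r with
  | zero =>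
    intro hr
    rw [← hfix j 0 hj hr]
    constructor
    · intro h
      exact absurd h (by simp [FF])
    · rintro ⟨r', hr', _⟩
      exact absurd hr' (Nat.not_lt_zero _)
  | succ r ih =>
    intro hr
    have ih' := ih (Nat.lt_of_succ_lt hr)
    rw [← hfix j (r + 1) hj hr]
    show outY n W v Y j r = true ↔ _
    unfold outY
    rw [Bool.or_eq_true, Bool.and_eq_true, ih']
    constructor
    · rintro (⟨r', h1, h2⟩ | h)
      · exact ⟨r', by omega, h2⟩
      · exact ⟨r, by omega, h⟩
    · rintro ⟨r', h1, h2⟩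
      rcases Nat.lt_succ_iff_lt_or_eq.mp h1 with h | h
      · exact Or.inl ⟨r', h, h2⟩
      · subst h
        exact Or.inr h2

private theorem f2_lt
    (hfix : ∀ j r, j < n → r < LL n W → FF n W v (Yt n W v (TT n W)) j r = Yt n W v (TT n W) j r)
    (i q i' q' : ℕ) (hi : i < n) (hi' : i' < n) (hq : q < LL n W) (hq' : q' < LL n W)
    (hj : jj n W q = jj n W q') (h1 : sel n W v i q = true) (h2 : sel n W v i' q' = true) :
    ¬ rr n W i q < rr n W i' q' := by
  intro hlt
  obtain ⟨a1, a2, a3⟩ := (f2_sel n W v i q).mp h1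
  obtain ⟨b1, b2, b3⟩ := (f2_sel n W v i' q').mp h2
  have hn : 0 < n := lt_of_le_of_lt (Nat.zero_le _) hi
  have h := (f2_fix n W v _ hfix (jj n W q') (jj_lt n W q' hn) _ (rr_lt n W i' q' hi' hq')).mpr
    ⟨rr n W i q, hlt, by
      rw [← hj, jj_rr n W i q hi hq, rr_rr n W i q hi hq]
      exact ⟨a2, a1⟩⟩
  rw [b3] at h
  exact absurd h (by simp)

theorem sel_man (i q q' : ℕ) (hq : q < q') (h1 : sel n W v i q = true)
    (h2 : sel n W v i q' = true) : False := by
  obtain ⟨a1, _, a3⟩ := (f2_sel n W v i q).mp h1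
  obtain ⟨_, b2, _⟩ := (f2_sel n W v i q').mp h2
  rcases (f2_acc n W v _ i q').mp b2 q hq with h | h
  · rw [a3] at h
    exact absurd h (by simp)
  · rw [a1] at h
    exact absurd h (by simp)

theorem sel_woman
    (hfix : ∀ j r, j < n → r < LL n W → FF n W v (Yt n W v (TT n W)) j r = Yt n W v (TT n W) j r)
    (i q i' q' : ℕ) (hi : i < n) (hi' : i' < n) (hq : q < LL n W) (hq' : q' < LL n W)
    (hj : jj n W q = jj n W q') (h1 : sel n W v i q = true) (h2 : sel n W v i' q' = true) :
    i = i' ∧ q = q' := by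
  have e1 := f2_lt n W v hfix i q i' q' hi hi' hq hq' hj h1 h2
  have e2 := f2_lt n W v hfix i' q' i q hi' hi hq' hq hj.symm h2 h1
  have e : rr n W i q = rr n W i' q' := by omega
  constructor
  · have := jj_rr n W i q hi hq
    rw [e, jj_rr n W i' q' hi' hq'] at this
    exact this.symm
  · have := rr_rr n W i q hi hq
    rw [e, hj, rr_rr n W i' q' hi' hq'] at this
    exact this.symm

theorem sel_stab
    (hfix : ∀ j r, j < n → r < LL n W → FF n W v (Yt n W v (TT n W)) j r = Yt n W v (TT n W) j r)
    (i q : ℕ) (hi : i < n) (hq : q < LL n W) (ha : act n W v i q = true) :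
    (∃ q' ≤ q, sel n W v i q' = true) ∨
    (∃ i' < n, ∃ q' < LL n W, jj n W q' = jj n W q ∧ rr n W i' q' ≤ rr n W i q ∧
      sel n W v i' q' = true) := by
  classical
  have hn : 0 < n := lt_of_le_of_lt (Nat.zero_le _) hi
  by_cases hacc : acc n W v (Yt n W v (TT n W)) i q = true
  · by_cases hY : Yt n W v (TT n W) (jj n W q) (rr n W i q) = true
    · right
      have hj := jj_lt n W q hn
      have hr := rr_lt n W i q hi hq
      have hex := (f2_fix n W v _ hfix (jj n W q) hj _ hr).mp hY
      have hspec := Nat.find_spec hex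
      have hmin := fun m hm => Nat.find_min hex (m := m) hm
      set r' := Nat.find hex with hr'
      obtain ⟨c1, c2, c3⟩ := hspec
      have hr'L : r' < LL n W := c1.trans hr
      have hYr : Yt n W v (TT n W) (jj n W q) r' = false := by
        rw [Bool.eq_false_iff]
        intro h
        obtain ⟨m, hm, hm2⟩ := (f2_fix n W v _ hfix (jj n W q) hj _ hr'L).mp h
        exact hmin m hm ⟨hm.trans c1, hm2⟩
      refine ⟨jj n W r', jj_lt n W r' hn, rr n W (jj n W q) r', rr_lt n W _ r' hj hr'L,
        jj_rr n W _ r' hj hr'L, ?_, ?_⟩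
      · rw [rr_rr n W (jj n W q) r' hj hr'L]
        exact c1.le
      · rw [f2_sel]
        refine ⟨c3, c2, ?_⟩
        rw [jj_rr n W _ r' hj hr'L, rr_rr n W (jj n W q) r' hj hr'L]
        exact hYr
    · left
      refine ⟨q, le_rfl, ?_⟩
      rw [f2_sel]
      exact ⟨ha, hacc, by rw [Bool.eq_false_iff]; exact hY⟩
  · left
    have hex : ∃ q', q' < q ∧ ¬ (Yt n W v (TT n W) (jj n W q') (rr n W i q') = true ∨ act n W v i q' = false) := by
      rw [f2_acc] at hacc
      push Not at hacc
      obtain ⟨q', h1, h2⟩ := hacc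
      exact ⟨q', h1, by push Not; exact h2⟩
    have hspec := Nat.find_spec hex
    have hmin := fun m hm => Nat.find_min hex (m := m) hm
    set q' := Nat.find hex with hq'
    obtain ⟨c1, c2⟩ := hspec
    push Not at c2
    refine ⟨q', c1.le, ?_⟩
    rw [f2_sel, f2_acc]
    refine ⟨?_, ?_, ?_⟩
    · have := c2.2
      simpa using this
    · intro m hm
      by_contra hcon
      exact hmin m hm ⟨hm.trans c1, hcon⟩
    · rw [Bool.eq_false_iff]
      exact c2.1

end LibMC75
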