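import Pool.Agent.LibMC75.Net
/-!
ROW [MC K1] (MEDIUM, ONLY MATHLIB).  A kernel of priced contracts is a matching of maximum weight.
`sel i j p` : the contract of man i and woman j at price p is selected; V = (n+1) * v i j;
the man's utility in it is u = (n+1) * v i j - p.
PLAN.  (a) IsMatching: from hM, hp, hm, hw.
(b) Let U i := the number (n+1) * v i j' - p' of the selected contract of i, 0 if there is none
(define U i := sSup / or by Classical.choose: `if h : ∃ j' p', sel i j' p' then ... else 0`);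
w j := the price p' of the selected contract of j, 0 if there is none.
(c) for all i < n, j < n: (n+1) * v i j ≤ U i + w j + 1.  Proof: if w j ≥ (n+1) * v i j: done.  Otherwise take
p := w j + 1 if j has a selected contract, p := 0 if not; p ≤ (n+1) * v i j; use hs.  Second alternative
(∃ i' p', sel i' j p' ∧ p ≤ p') is impossible (by hw p' = w j < p, or there is no selected contract).  First
alternative gives U i ≥ (n+1) * v i j - p.
(d) for M' a matching: Σ_{e∈M'} (n+1) v e ≤ Σ_{e∈M'} (U e.1 + w e.2 + 1) ≤ Σ_{i<n} U i + Σ_{j<n} w j + |M'|  (first and second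
coordinates are injective on M': Finset.sum_image + sum_le_sum_of_subset), |M'| ≤ n (Finset.card_le_card_of_injOn into range n).
(e) Σ_{i<n} U i + Σ_{j<n} w j = Σ_{e∈M} (U e.1 + w e.2) = Σ_{e∈M} (n+1) v e (U i = 0 for i not a first coordinate of M, etc.; for e ∈ M
with selected price p: U e.1 = (n+1) v e - p, w e.2 = p, and p ≤ (n+1) v e by hp).
(f) so (n+1) * weight M' ≤ (n+1) * weight M + n, hence weight M' ≤ weight M (Nat.lt_succ / nlinarith / by_contra + omega after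
Nat.mul_le_mul_left).
-/
namespace LibMC75

private theorem k1_fun (sel : ℕ → ℕ → ℕ → Prop) (F : ℕ → ℕ → ℕ → ℕ)
    (hm : ∀ i j p j' p', sel i j p → sel i j' p' → j = j' ∧ p = p') :
    ∃ U : ℕ → ℕ, (∀ i j p, sel i j p → U i = F i j p) ∧ ∀ i, (¬ ∃ j p, sel i j p) → U i = 0 := by
  classical
  refine ⟨fun i => if h : ∃ j' p', sel i j' p' then F i h.choose h.choose_spec.choose else 0, ?_, ?_⟩
  · intro i j p h
    have hex : ∃ j' p', sel i j' p' := ⟨j, p, h⟩
    have hc : sel i hex.choose hex.choose_spec.choose := hex.choose_spec.choose_spec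
    obtain ⟨e1, e2⟩ := hm i _ _ _ _ h hc
    simp only [dif_pos hex]
    exact congrArg₂ (F i) e1.symm e2.symm
  · intro i h
    simp only [dif_neg h]

private theorem k1_sum (n : ℕ) (U : ℕ → ℕ) (M : Finset (ℕ × ℕ)) (f : ℕ × ℕ → ℕ)
    (h1 : ∀ e ∈ M, f e < n) (h2 : ∀ e ∈ M, ∀ e' ∈ M, f e = f e' → e = e') :
    ∑ e ∈ M, U (f e) ≤ ∑ i ∈ Finset.range n, U i := by
  rw [← Finset.sum_image (f := U) (g := f) (fun e he e' he' h => h2 e he e' he' h)]
  refine Finset.sum_le_sum_of_subset ?_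
  intro i hi
  obtain ⟨e, he, rfl⟩ := Finset.mem_image.1 hi
  exact Finset.mem_range.2 (h1 e he)

private theorem k1_sum_eq (n : ℕ) (U : ℕ → ℕ) (M : Finset (ℕ × ℕ)) (f : ℕ × ℕ → ℕ)
    (h1 : ∀ e ∈ M, f e < n) (h2 : ∀ e ∈ M, ∀ e' ∈ M, f e = f e' → e = e')
    (h3 : ∀ i, (¬ ∃ e ∈ M, f e = i) → U i = 0) :
    ∑ e ∈ M, U (f e) = ∑ i ∈ Finset.range n, U i := by
  rw [← Finset.sum_image (f := U) (g := f) (fun e he e' he' h => h2 e he e' he' h)]
  refine Finset.sum_subset ?_ ?_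
  · intro i hi
    obtain ⟨e, he, rfl⟩ := Finset.mem_image.1 hi
    exact Finset.mem_range.2 (h1 e he)
  · intro i _ hi
    refine h3 i ?_
    rintro ⟨e, he, h⟩
    exact hi (Finset.mem_image.2 ⟨e, he, h⟩)

theorem kernel_optimal (n : ℕ) (v : ℕ → ℕ → ℕ) (sel : ℕ → ℕ → ℕ → Prop)
    (hp : ∀ i j p, sel i j p → i < n ∧ j < n ∧ p ≤ (n + 1) * v i j)
    (hm : ∀ i j p j' p', sel i j p → sel i j' p' → j = j' ∧ p = p')
    (hw : ∀ i j p i' p', sel i j p → sel i' j p' → i = i' ∧ p = p')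
    (hs : ∀ i < n, ∀ j < n, ∀ p ≤ (n + 1) * v i j,
      (∃ j' p', sel i j' p' ∧ (n + 1) * v i j - p ≤ (n + 1) * v i j' - p') ∨
      (∃ i' p', sel i' j p' ∧ p ≤ p'))
    (M : Finset (ℕ × ℕ)) (hM : ∀ i j, (i, j) ∈ M ↔ ∃ p, sel i j p) :
    IsMatching n M ∧ ∀ M', IsMatching n M' → weight v M' ≤ weight v M := by
  obtain ⟨U, hU, hU0⟩ := k1_fun sel (fun i j p => (n + 1) * v i j - p) hm
  obtain ⟨w, hW, hW0⟩ := k1_fun (fun j i p => sel i j p) (fun _ _ p => p)
    (fun j i p i' p' h h' => hw i j p i' p' h h')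
  have hc : ∀ i < n, ∀ j < n, (n + 1) * v i j ≤ U i + w j + 1 := by
    intro i hi j hj
    by_cases hex : ∃ i' p', sel i' j p'
    · obtain ⟨i', p', h'⟩ := hex
      have hwj : w j = p' := hW j i' p' h'
      by_cases hle : (n + 1) * v i j ≤ p'
      · omega
      · rcases hs i hi j hj (p' + 1) (by omega) with ⟨j1, p1, hsel, h⟩ | ⟨i1, p1, hsel, h⟩
        · have hUi : U i = (n + 1) * v i j1 - p1 := hU i j1 p1 hsel
          omega
        · obtain ⟨_, e2⟩ := hw _ _ _ _ _ h' hsel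
          omega
    · rcases hs i hi j hj 0 (Nat.zero_le _) with ⟨j1, p1, hsel, h⟩ | ⟨i1, p1, hsel, h⟩
      · have hUi : U i = (n + 1) * v i j1 - p1 := hU i j1 p1 hsel
        omega
      · exact absurd ⟨i1, p1, hsel⟩ hex
  have hMat : IsMatching n M := by
    refine ⟨?_, ?_, ?_⟩
    · rintro ⟨i, j⟩ he
      obtain ⟨p, h⟩ := (hM i j).1 he
      exact ⟨(hp i j p h).1, (hp i j p h).2.1⟩
    · rintro ⟨i, j⟩ he ⟨i', j'⟩ he' h
      obtain ⟨p, hs1⟩ := (hM i j).1 he
      obtain ⟨p', hs2⟩ := (hM i' j').1 he'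
      have h' : i = i' := h
      subst h'
      rw [(hm i j p j' p' hs1 hs2).1]
    · rintro ⟨i, j⟩ he ⟨i', j'⟩ he' h
      obtain ⟨p, hs1⟩ := (hM i j).1 he
      obtain ⟨p', hs2⟩ := (hM i' j').1 he'
      have h' : j = j' := h
      subst h'
      rw [(hw i j p i' p' hs1 hs2).1]
  refine ⟨hMat, fun M' hM' => ?_⟩
  have e1 : ∑ e ∈ M, U e.1 = ∑ i ∈ Finset.range n, U i := by
    refine k1_sum_eq n U M Prod.fst (fun e he => (hMat.1 e he).1) hMat.2.1 ?_
    intro i hi
    refine hU0 i ?_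
    rintro ⟨j, p, h⟩
    exact hi ⟨(i, j), (hM i j).2 ⟨p, h⟩, rfl⟩
  have e2 : ∑ e ∈ M, w e.2 = ∑ j ∈ Finset.range n, w j := by
    refine k1_sum_eq n w M Prod.snd (fun e he => (hMat.1 e he).2) hMat.2.2 ?_
    intro j hj
    refine hW0 j ?_
    rintro ⟨i, p, h⟩
    exact hj ⟨(i, j), (hM i j).2 ⟨p, h⟩, rfl⟩
  have e3 : ∑ e ∈ M, (n + 1) * v e.1 e.2 = ∑ e ∈ M, U e.1 + ∑ e ∈ M, w e.2 := by
    rw [← Finset.sum_add_distrib]
    refine Finset.sum_congr rfl ?_
    rintro ⟨i, j⟩ he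
    obtain ⟨p, h⟩ := (hM i j).1 he
    have h1 : U i = (n + 1) * v i j - p := hU i j p h
    have h2 : w j = p := hW j i p h
    have h3 := (hp i j p h).2.2
    show (n + 1) * v i j = U i + w j
    omega
  have f1 := k1_sum n U M' Prod.fst (fun e he => (hM'.1 e he).1) hM'.2.1
  have f2 := k1_sum n w M' Prod.snd (fun e he => (hM'.1 e he).2) hM'.2.2
  have f3 : M'.card ≤ n := by
    have := Finset.card_le_card_of_injOn (s := M') (t := Finset.range n) Prod.fst
      (fun e he => by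
        have := (hM'.1 e he).1
        simpa using this)
      (fun e he e' he' h => hM'.2.1 e he e' he' h)
    simpa using this
  have f4 : ∑ e ∈ M', (n + 1) * v e.1 e.2 ≤ ∑ e ∈ M', (U e.1 + w e.2 + 1) :=
    Finset.sum_le_sum fun e he => hc e.1 (hM'.1 e he).1 e.2 (hM'.1 e he).2
  rw [Finset.sum_add_distrib, Finset.sum_add_distrib, Finset.sum_const, smul_eq_mul, mul_one] at f4
  rw [← Finset.mul_sum] at e3 f4
  have g1 : (n + 1) * weight v M' ≤ (n + 1) * weight v M + n := by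
    unfold weight
    omega
  by_contra hlt
  have hlt' : weight v M + 1 ≤ weight v M' := by omega
  have g2 := Nat.mul_le_mul_left (n + 1) hlt'
  rw [Nat.mul_add, Nat.mul_one] at g2
  omega

end LibMC75
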