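import Pool.Agent.LibMC75.P1
import Pool.Agent.LibMC75.A1
import Pool.Agent.LibMC75.K1
import Pool.Agent.LibMC75.F1
import Pool.Agent.LibMC75.F2
/-!
ROW [MC F3] (MEDIUM).  Assembly of the mathematical part: MM is a matching of maximum weight, and the count of the tokens is its weight.
PLAN.  Apply kernel_optimal with sel3 i j p := i < n ∧ ∃ q < LL, jj q = j ∧ BB - 1 - q % BB = p ∧ sel n W v i q = true and M := MM.
For q < LL put x = q/(BB*n) < BB, y = q%BB < BB; u = BB-1-x, p = BB-1-y; zz q = p + u.  sel ⇒ act ⇒ (act_iff) (n+1) * v i j = p + u,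
so p ≤ (n+1) v i j and (n+1) v i j - p = u.
hm: sel_man (trichotomy on q, q').  hw: sel_woman.  hs: given i, j, p ≤ (n+1) v i j ≤ (n+1) W = BB - 1 put u := (n+1) v i j - p, x := BB-1-u, y := BB-1-p,
q := (x*n+j)*BB+y; `coord` gives q < LL and the coordinates; act i q by act_iff; sel_stab: first case q' ≤ q ⇒ x' ≤ x (Nat.div_le_div_right) ⇒ u' ≥ u;
second case rr i' q' ≤ rr i q ⇒ y' = rr i' q' / (BB*n) ≤ rr i q / (BB*n) = y (rr_div) ⇒ p' ≥ p.
Third part: for every i < n the inner sum has at most one nonzero term (sel_man); for (i, j) ∈ MM it is kap q = v i j (act).  E.g. write both sides as sums over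
range n ×ˢ range LL filtered by sel (Finset.sum_product', Finset.sum_filter), and use Finset.sum_bij / Finset.sum_nbij with (i, q) ↦ (i, jj q).
-/
namespace LibMC75

private theorem F3_act {n W : ℕ} {v : ℕ → ℕ → ℕ} {i q : ℕ} (h : sel n W v i q = true) :
    act n W v i q = true := by
  unfold sel at h
  rw [Bool.and_eq_true] at h
  exact h.1

private theorem F3_zz {n W q : ℕ} (hq : q < LL n W) :
    zz n W q = (BB n W - 1 - q % BB n W) + (BB n W - 1 - q / (BB n W * n)) := by
  have h1 := x_lt n W q hq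
  have h2 : q % BB n W < BB n W := Nat.mod_lt _ (BB_pos n W)
  unfold zz
  omega

/-- the selected contract of a man and a woman -/
private def F3_sel (n W : ℕ) (v : ℕ → ℕ → ℕ) (i j p : ℕ) : Prop :=
  i < n ∧ ∃ q < LL n W, jj n W q = j ∧ BB n W - 1 - q % BB n W = p ∧ sel n W v i q = true

theorem MM_spec (n W : ℕ) (v : ℕ → ℕ → ℕ) (hv : ∀ i < n, ∀ j < n, v i j ≤ W) :
    IsMatching n (MM n W v) ∧
    (∀ M', IsMatching n M' → weight v M' ≤ weight v (MM n W v)) ∧
    ∑ i ∈ Finset.range n, ∑ q ∈ Finset.range (LL n W),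
      (if sel n W v i q = true then kap n W q else 0) = weight v (MM n W v) := by
  have hfix : ∀ j r, j < n → r < LL n W →
      FF n W v (Yt n W v (TT n W)) j r = Yt n W v (TT n W) j r :=
    fun j r hj hr => Yt_fix n W v (fun i q hi hq => rr_lt n W i q hi hq) j r hj hr
  have hact : ∀ i q, i < n → q < LL n W → act n W v i q = true →
      (n + 1) * v i (jj n W q) =
        (BB n W - 1 - q % BB n W) + (BB n W - 1 - q / (BB n W * n)) := by
    intro i q hi hq h
    rw [← F3_zz hq]
    exact (act_iff n W v i q (hv i hi _ (jj_lt n W q (by omega)))).1 h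
  have hM : ∀ i j, (i, j) ∈ MM n W v ↔ ∃ p, F3_sel n W v i j p := by
    intro i j
    unfold MM F3_sel
    rw [Finset.mem_filter, Finset.mem_product, Finset.mem_range, Finset.mem_range]
    constructor
    · rintro ⟨⟨hi, hj⟩, q, hq, h1, h2⟩
      exact ⟨_, hi, q, hq, h1, rfl, h2⟩
    · rintro ⟨p, hi, q, hq, h1, -, h2⟩
      exact ⟨⟨hi, h1 ▸ jj_lt n W q (by omega)⟩, q, hq, h1, h2⟩
  have hBB : BB n W - 1 = (n + 1) * W := by
    unfold BB
    omega
  have hk := kernel_optimal n v (F3_sel n W v) ?_ ?_ ?_ ?_ (MM n W v) hM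
  · refine ⟨hk.1, hk.2, ?_⟩
    rw [← Finset.sum_product' (Finset.range n) (Finset.range (LL n W))
      (fun i q => if sel n W v i q = true then kap n W q else 0), ← Finset.sum_filter]
    unfold weight
    refine Finset.sum_nbij (fun a : ℕ × ℕ => (a.1, jj n W a.2)) ?_ ?_ ?_ ?_
    · intro a ha
      rw [Finset.mem_filter, Finset.mem_product, Finset.mem_range, Finset.mem_range] at ha
      obtain ⟨⟨h1, h2⟩, h3⟩ := ha
      exact (hM a.1 (jj n W a.2)).2 ⟨_, h1, a.2, h2, rfl, rfl, h3⟩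
    · intro a ha b hb hab
      rw [Finset.mem_coe, Finset.mem_filter, Finset.mem_product, Finset.mem_range,
        Finset.mem_range] at ha hb
      obtain ⟨⟨h1, h2⟩, h3⟩ := ha
      obtain ⟨⟨h1', h2'⟩, h3'⟩ := hb
      have e1 : a.1 = b.1 := (Prod.mk.inj hab).1
      rw [← e1] at h3'
      rcases lt_trichotomy a.2 b.2 with h | h | h
      · exact (sel_man n W v a.1 a.2 b.2 h h3 h3').elim
      · exact Prod.ext e1 h
      · exact (sel_man n W v a.1 b.2 a.2 h h3' h3).elim
    · intro e he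
      rw [Finset.mem_coe] at he
      obtain ⟨i, j⟩ := e
      obtain ⟨p, hi, q, hq, h1, -, h2⟩ := (hM i j).1 he
      refine ⟨(i, q), ?_, ?_⟩
      · rw [Finset.mem_coe, Finset.mem_filter, Finset.mem_product, Finset.mem_range,
          Finset.mem_range]
        exact ⟨⟨hi, hq⟩, h2⟩
      · change (i, jj n W q) = (i, j)
        rw [h1]
    · intro a ha
      rw [Finset.mem_filter] at ha
      have h := F3_act ha.2
      unfold act at h
      exact (decide_eq_true_iff.1 h).symm
  · rintro i j p ⟨hi, q, hq, h1, h2, h3⟩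
    have h4 := hact i q hi hq (F3_act h3)
    rw [h1] at h4
    refine ⟨hi, h1 ▸ jj_lt n W q (by omega), ?_⟩
    omega
  · rintro i j p j' p' ⟨hi, q, hq, h1, h2, h3⟩ ⟨hi', q', hq', h1', h2', h3'⟩
    rcases lt_trichotomy q q' with h | h | h
    · exact (sel_man n W v i q q' h h3 h3').elim
    · subst h
      exact ⟨h1.symm.trans h1', h2.symm.trans h2'⟩
    · exact (sel_man n W v i q' q h h3' h3).elim
  · rintro i j p i' p' ⟨hi, q, hq, h1, h2, h3⟩ ⟨hi', q', hq', h1', h2', h3'⟩
    obtain ⟨e1, e2⟩ := sel_woman n W v hfix i q i' q' hi hi' hq hq' (h1.trans h1'.symm) h3 h3'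
    subst e2
    exact ⟨e1, h2.symm.trans h2'⟩
  · intro i hi j hj p hp
    have hvW : (n + 1) * v i j ≤ BB n W - 1 := by
      rw [hBB]
      exact Nat.mul_le_mul_left _ (hv i hi j hj)
    have hB := BB_pos n W
    obtain ⟨u, hu⟩ : ∃ u, u = (n + 1) * v i j - p := ⟨_, rfl⟩
    obtain ⟨x, hx⟩ : ∃ x, x = BB n W - 1 - u := ⟨_, rfl⟩
    obtain ⟨y, hy⟩ : ∃ y, y = BB n W - 1 - p := ⟨_, rfl⟩
    obtain ⟨q, hqd⟩ : ∃ q, q = (x * n + j) * BB n W + y := ⟨_, rfl⟩
    obtain ⟨c1, c2, c3, c4⟩ := coord n W x j y (by omega) hj (by omega)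
    rw [← hqd] at c1 c2 c3 c4
    have ha : act n W v i q = true := by
      rw [act_iff n W v i q (hv i hi _ (jj_lt n W q (by omega))), F3_zz c1, c2, c3, c4]
      omega
    rcases sel_stab n W v hfix i q hi c1 ha with ⟨q', hq', hs⟩ | ⟨i', hi', q', hq', hjj, hrr, hs⟩
    · left
      have hq'L : q' < LL n W := lt_of_le_of_lt hq' c1
      refine ⟨jj n W q', BB n W - 1 - q' % BB n W, ⟨hi, q', hq'L, rfl, rfl, hs⟩, ?_⟩
      rw [hact i q' hi hq'L (F3_act hs)]
      have h5 : q' / (BB n W * n) ≤ x := by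
        rw [← c2]
        exact Nat.div_le_div_right hq'
      omega
    · right
      refine ⟨i', BB n W - 1 - q' % BB n W, ⟨hi', q', hq', hjj.trans c3, rfl, hs⟩, ?_⟩
      have h5 : q' % BB n W ≤ y := by
        have h6 : rr n W i' q' / (BB n W * n) ≤ rr n W i q / (BB n W * n) :=
          Nat.div_le_div_right hrr
        rwa [rr_div n W i' q' hi' hq', rr_div n W i q hi c1, c4] at h6
      omega

end LibMC75
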