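import Pool.Agent.LibMC75.Basic
/-!
ROW [MC U1] (SHORT, ONLY MATHLIB + Basic).  The dual circuit computes the complements.  Induction on gs; one gate: cases w = g.1, w = g.2 (g.1 = g.2 allowed), otherwise;
Wire.flip is injective (flip_flip).
-/
namespace LibMC75

theorem flip_flip (w : Wire) : w.flip.flip = w := by
  cases w <;> rfl

theorem init_flip (v : ℕ → ℕ → ℕ) (w : Wire) : Wire.init v w.flip = !Wire.init v w := by
  cases w <;> simp [Wire.flip, Wire.init]

private theorem flip_inj {a b : Wire} : a.flip = b.flip ↔ a = b := by
  constructor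
  · intro h
    rw [← flip_flip a, h, flip_flip]
  · intro h
    rw [h]

private theorem step_dual (g : Wire × Wire) (s : Wire → Bool) :
    (fun w : Wire => !(step s (g.2.flip, g.1.flip)) w.flip) = step (fun w => !s w.flip) g := by
  funext w
  simp only [step, flip_inj]
  by_cases h1 : w = g.1
  · by_cases h2 : w = g.2
    · have h3 : g.1 = g.2 := h1.symm.trans h2
      rw [if_pos h2, if_pos h1, ← h3]
      cases s g.1.flip <;> rfl
    · rw [if_neg h2, if_pos h1, if_pos h1]
      cases s g.1.flip <;> cases s g.2.flip <;> rfl
  · by_cases h2 : w = g.2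
    · rw [if_pos h2, if_neg h1, if_pos h2]
      cases s g.1.flip <;> cases s g.2.flip <;> rfl
    · rw [if_neg h2, if_neg h1, if_neg h1, if_neg h2]

theorem run_dual (gs : List (Wire × Wire)) (s : Wire → Bool) (w : Wire) :
    run (dual gs) s w.flip = !run gs (fun w => !s w.flip) w := by
  induction gs generalizing s with
  | nil => simp [dual, run_nil]
  | cons g gs ih =>
    have h1 : dual (g :: gs) = (g.2.flip, g.1.flip) :: dual gs := rfl
    rw [h1, run_cons, run_cons, ih, step_dual]

end LibMC75
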