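import Pool.Agent.LibMC75.N2
import Pool.Agent.LibMC75.U1
/-!
ROW [MC G1] (MEDIUM).  The gadget computes sel, and touches only wires whose name begins with [c, i, q, m].
-/
namespace LibMC75

/-- the name of a wire -/
def Wire.pre : Wire → List ℕ
  | .zero l => l
  | .one l => l
  | .pos _ _ _ l => l
  | .neg _ _ _ l => l

private theorem pre_flip (w : Wire) : w.flip.pre = w.pre := by
  cases w <;> rfl

/-- both wires of the gate have names beginning with `p` -/
private def GIn (p : List ℕ) (g : Wire × Wire) : Prop :=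
  (∃ l, g.1.pre = p ++ l) ∧ (∃ l, g.2.pre = p ++ l)

private theorem gin_blk (n W : ℕ) (p : List ℕ) (t i q : ℕ) (g : Wire × Wire)
    (h : g ∈ blk n W p t i q) : GIn p g := by
  simp only [blk, List.mem_cons, List.not_mem_nil, or_false] at h
  rcases h with rfl | rfl | rfl | rfl
  · exact ⟨⟨_, rfl⟩, ⟨_, rfl⟩⟩
  · exact ⟨⟨_, rfl⟩, ⟨_, rfl⟩⟩
  · exact ⟨⟨_, rfl⟩, ⟨_, rfl⟩⟩
  · exact ⟨⟨_, rfl⟩, ⟨_, rfl⟩⟩

private theorem gin_pass (n W : ℕ) (p : List ℕ) (t i Q : ℕ) (g : Wire × Wire)
    (h : g ∈ pass n W p t i Q) : GIn p g := by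
  unfold pass at h
  rw [List.mem_flatMap] at h
  obtain ⟨q, _, hq⟩ := h
  exact gin_blk n W p t i q g hq

private theorem gin_net (n W : ℕ) (p : List ℕ) (T : ℕ) (g : Wire × Wire)
    (h : g ∈ net n W p T) : GIn p g := by
  unfold net at h
  rw [List.mem_flatMap] at h
  obtain ⟨t, _, ht⟩ := h
  rw [List.mem_flatMap] at ht
  obtain ⟨i, _, hi⟩ := ht
  exact gin_pass n W p t i _ g hi

private theorem gin_dual (p : List ℕ) (gs : List (Wire × Wire)) (h : ∀ g ∈ gs, GIn p g)
    (g : Wire × Wire) (hg : g ∈ dual gs) : GIn p g := by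
  unfold dual at hg
  rw [List.mem_map] at hg
  obtain ⟨g', hg', rfl⟩ := hg
  obtain ⟨⟨l, hl⟩, ⟨l', hl'⟩⟩ := h g' hg'
  exact ⟨⟨l', by simpa [pre_flip] using hl'⟩, ⟨l, by simpa [pre_flip] using hl⟩⟩

private theorem take4 (a b c d : ℕ) (l : List ℕ) : ([a, b, c, d] ++ l).take 4 = [a, b, c, d] := by
  simp

/-- a wire whose name does not begin with `p` is not touched -/
private theorem frame_gin (a b c d : ℕ) (gs : List (Wire × Wire))
    (h : ∀ g ∈ gs, GIn [a, b, c, d] g) (s : Wire → Bool) (w : Wire)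
    (hw : w.pre.take 4 ≠ [a, b, c, d]) : run gs s w = s w := by
  apply run_frame
  intro g hg
  obtain ⟨⟨l, hl⟩, ⟨l', hl'⟩⟩ := h g hg
  constructor
  · intro h1
    apply hw
    rw [← h1, hl, take4]
  · intro h1
    apply hw
    rw [← h1, hl', take4]

theorem gad_frame (n W i q m : ℕ) (s : Wire → Bool) (w : Wire)
    (h : ∀ c, w.pre.take 4 ≠ [c, i, q, m]) : run (gad n W i q m) s w = s w := by
  unfold gad
  rw [run_append, run_append, run_append]
  have h4 : ∀ s' : Wire → Bool, run [(tok n W i q m, Wire.pos i (jj n W q) (kap n W q) [2, i, q, m]),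
       (tok n W i q m, Wire.one [1, i, q, m, jj n W q, rr n W i q])] s' w = s' w := by
    intro s'
    apply run_frame
    intro g hg
    have hne : ∀ w' : Wire, (∃ c, w'.pre.take 4 = [c, i, q, m]) → w' ≠ w := by
      rintro w' ⟨c, hc⟩ rfl
      exact h c hc
    simp only [List.mem_cons, List.not_mem_nil, or_false] at hg
    rcases hg with rfl | rfl
    · exact ⟨hne _ ⟨0, rfl⟩, hne _ ⟨2, rfl⟩⟩
    · exact ⟨hne _ ⟨0, rfl⟩, hne _ ⟨1, rfl⟩⟩
  rw [h4, frame_gin 1 i q m _ (gin_dual _ _ (gin_net n W [1, i, q, m] (TT n W))) _ w (h 1),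
    frame_gin 0 i q m _ (gin_pass n W [0, i, q, m] (TT n W) i q) _ w (h 0),
    frame_gin 0 i q m _ (gin_net n W [0, i, q, m] (TT n W)) _ w (h 0)]

theorem gad_spec (n W : ℕ) (v : ℕ → ℕ → ℕ) (i q m : ℕ) (hi : i < n) (hq : q < LL n W)
    (s : Wire → Bool) (hs : ∀ w : Wire, (∃ c, w.pre.take 4 = [c, i, q, m]) → s w = w.init v) :
    run (gad n W i q m) s (tok n W i q m) = sel n W v i q := by
  have hn : 0 < n := lt_of_le_of_lt (Nat.zero_le _) hi
  -- first part
  have hgood0 : Good n W v [0, i, q, m] 0 s := by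
    apply good_zero
    · intro l; exact hs _ ⟨0, rfl⟩
    · intro l; exact hs _ ⟨0, rfl⟩
    · intro i' j' k' l; exact hs _ ⟨0, rfl⟩
    · intro i' j' k' l; exact hs _ ⟨0, rfl⟩
  have hgood := good_net n W v [0, i, q, m] s hgood0
  unfold gad
  rw [run_append, run_append, run_append]
  generalize hs1 : run (net n W [0, i, q, m] (TT n W)) s = s1 at hgood ⊢
  obtain ⟨g1, -, g3, g4, g5⟩ := hgood
  have hacc : run (pass n W [0, i, q, m] (TT n W) i q) s1 (wA [0, i, q, m] (TT n W) i) =
      acc n W v (Yt n W v (TT n W)) i q := by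
    refine (pass_spec n W v [0, i, q, m] (TT n W) i q hi hq.le s1 (Yt n W v (TT n W))
      (g3 _ le_rfl i hi) ?_ ?_ ?_).1
    · intro q' hq'
      exact g4 _ le_rfl i hi q' (hq'.trans hq)
    · intro q' hq'
      exact g5 _ le_rfl i hi q' (hq'.trans hq)
    · intro q' hq'
      exact g1 _ (jj_lt n W q' hn) _ (rr_lt n W i q' hi (hq'.trans hq))
  generalize hs2 : run (pass n W [0, i, q, m] (TT n W) i q) s1 = s2 at hacc ⊢
  -- frame for the first two parts
  have hfr2 : ∀ w : Wire, (∀ l, w.pre.take 4 ≠ [0, i, q, m] ∨ l = 0) → s2 w = s w := by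
    intro w hw
    have hw0 : w.pre.take 4 ≠ [0, i, q, m] := by
      rcases hw 1 with h | h
      · exact h
      · exact absurd h one_ne_zero
    rw [← hs2, frame_gin 0 i q m _ (gin_pass n W [0, i, q, m] (TT n W) i q) _ w hw0, ← hs1,
      frame_gin 0 i q m _ (gin_net n W [0, i, q, m] (TT n W)) _ w hw0]
  have hfr : ∀ w : Wire, w.pre.take 4 = [1, i, q, m] → s2 w = w.init v := by
    intro w hw
    rw [hfr2 w (fun l => Or.inl (by rw [hw]; simp)), hs w ⟨1, hw⟩]
  -- the dual part
  have hgood1 : Good n W v [1, i, q, m] 0 (fun w => !s2 w.flip) := by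
    apply good_zero
    · intro l
      show (!s2 (Wire.one ([1, i, q, m] ++ l))) = false
      rw [hfr _ rfl]; rfl
    · intro l
      show (!s2 (Wire.zero ([1, i, q, m] ++ l))) = true
      rw [hfr _ rfl]; rfl
    · intro i' j' k' l
      show (!s2 (Wire.neg i' j' k' ([1, i, q, m] ++ l))) = decide (v i' j' = k')
      rw [hfr _ rfl]
      simp [Wire.init]
    · intro i' j' k' l
      show (!s2 (Wire.pos i' j' k' ([1, i, q, m] ++ l))) = !decide (v i' j' = k')
      rw [hfr _ rfl]
      simp [Wire.init]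
  have hgood2 := good_net n W v [1, i, q, m] _ hgood1
  have hY : run (dual (net n W [1, i, q, m] (TT n W))) s2
      (Wire.one [1, i, q, m, jj n W q, rr n W i q]) =
      !(Yt n W v (TT n W) (jj n W q) (rr n W i q)) := by
    have h1 : (Wire.one [1, i, q, m, jj n W q, rr n W i q]) =
        (wY [1, i, q, m] (jj n W q) (rr n W i q + (TT n W - TT n W))).flip := by
      simp [wY, Wire.flip]
    rw [h1, run_dual, hgood2.1 _ (jj_lt n W q hn) _ (rr_lt n W i q hi hq)]
  have htok : run (dual (net n W [1, i, q, m] (TT n W))) s2 (tok n W i q m) =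
      acc n W v (Yt n W v (TT n W)) i q := by
    rw [frame_gin 1 i q m _ (gin_dual _ _ (gin_net n W [1, i, q, m] (TT n W))) _ _ (by
      intro hc
      have : ([0, i, q, m] : List ℕ) = [1, i, q, m] := hc
      simp at this)]
    exact hacc
  have hpos : run (dual (net n W [1, i, q, m] (TT n W))) s2
      (Wire.pos i (jj n W q) (kap n W q) [2, i, q, m]) = act n W v i q := by
    rw [frame_gin 1 i q m _ (gin_dual _ _ (gin_net n W [1, i, q, m] (TT n W))) _ _ (by
      intro hc
      have : ([2, i, q, m] : List ℕ) = [1, i, q, m] := hc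
      simp at this), hfr2 _ (fun l => Or.inl (by
      intro hc
      have : ([2, i, q, m] : List ℕ) = [0, i, q, m] := hc
      simp at this)), hs _ ⟨2, rfl⟩]
    rfl
  generalize run (dual (net n W [1, i, q, m] (TT n W))) s2 = s3 at hY htok hpos ⊢
  have e1 : tok n W i q m ≠ Wire.pos i (jj n W q) (kap n W q) [2, i, q, m] := by
    simp [tok, wA]
  have e2 : tok n W i q m ≠ Wire.one [1, i, q, m, jj n W q, rr n W i q] := by
    simp [tok, wA]
  have e3 : Wire.one [1, i, q, m, jj n W q, rr n W i q] ≠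
      Wire.pos i (jj n W q) (kap n W q) [2, i, q, m] := by
    simp
  generalize tok n W i q m = A at *
  generalize Wire.pos i (jj n W q) (kap n W q) [2, i, q, m] = B at *
  generalize Wire.one [1, i, q, m, jj n W q, rr n W i q] = C at *
  simp only [run, List.foldl, step, if_true, e1, e2, e3, e1.symm, e2.symm, e3.symm, if_false,
    ite_true, ite_false, hY, htok, hpos, sel]
  cases acc n W v (Yt n W v (TT n W)) i q <;> cases act n W v i q <;>
    cases Yt n W v (TT n W) (jj n W q) (rr n W i q) <;> rfl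

end LibMC75
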