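import Pool.Agent.LibMC75.Net
/-!
Coordinates of positions
-/
namespace LibMC75

theorem BB_pos (n W : ℕ) : 0 < BB n W := Nat.succ_pos _

theorem jj_lt (n W q : ℕ) (hn : 0 < n) : jj n W q < n := Nat.mod_lt _ hn

/-- x < B -/
theorem x_lt (n W q : ℕ) (hq : q < LL n W) : q / (BB n W * n) < BB n W := by
  unfold LL at hq
  exact Nat.div_lt_of_lt_mul hq

/-- the decomposition of q -/
theorem q_eq (n W q : ℕ) : q = (q / (BB n W * n) * n + jj n W q) * BB n W + q % BB n W := by
  unfold jj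
  rw [← Nat.div_div_eq_div_mul, Nat.div_add_mod', Nat.div_add_mod']

private theorem mk_div (B Z x : ℕ) (hx : x < B) : (Z * B + x) / B = Z := by
  have hB : 0 < B := by omega
  rw [Nat.add_comm, Nat.add_mul_div_right _ _ hB, Nat.div_eq_of_lt hx, Nat.zero_add]

private theorem mk_mod (B Z x : ℕ) (hx : x < B) : (Z * B + x) % B = x := by
  rw [Nat.add_comm, Nat.add_mul_mod_self_right, Nat.mod_eq_of_lt hx]

private theorem mk_lt (B n x j y : ℕ) (hx : x < B) (hj : j < n) (hy : y < B) :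
    (x * n + j) * B + y < B * n * B := by
  have h1 : x * n + j + 1 ≤ B * n := by
    have : (x + 1) * n ≤ B * n := Nat.mul_le_mul_right _ hx
    nlinarith
  have h2 : (x * n + j + 1) * B ≤ B * n * B := Nat.mul_le_mul_right _ h1
  nlinarith

/-- coordinates of an explicitly given position -/
theorem coord (n W x j y : ℕ) (hx : x < BB n W) (hj : j < n) (hy : y < BB n W) :
    (x * n + j) * BB n W + y < LL n W ∧
    ((x * n + j) * BB n W + y) / (BB n W * n) = x ∧
    jj n W ((x * n + j) * BB n W + y) = j ∧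
    ((x * n + j) * BB n W + y) % BB n W = y := by
  refine ⟨mk_lt _ _ _ _ _ hx hj hy, ?_, ?_, mk_mod _ _ _ hy⟩
  · rw [← Nat.div_div_eq_div_mul, mk_div _ _ _ hy, mk_div _ _ _ hj]
  · unfold jj
    rw [mk_div _ _ _ hy, mk_mod _ _ _ hj]

theorem rr_lt (n W i q : ℕ) (hi : i < n) (hq : q < LL n W) : rr n W i q < LL n W :=
  mk_lt _ _ _ _ _ (Nat.mod_lt _ (BB_pos n W)) hi (x_lt n W q hq)

theorem rr_mod (n W i q : ℕ) (hq : q < LL n W) : rr n W i q % BB n W = q / (BB n W * n) :=
  mk_mod _ _ _ (x_lt n W q hq)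

theorem rr_div (n W i q : ℕ) (hi : i < n) (hq : q < LL n W) :
    rr n W i q / (BB n W * n) = q % BB n W :=
  (coord n W _ i _ (Nat.mod_lt _ (BB_pos n W)) hi (x_lt n W q hq)).2.1

theorem jj_rr (n W i q : ℕ) (hi : i < n) (hq : q < LL n W) : jj n W (rr n W i q) = i :=
  (coord n W _ i _ (Nat.mod_lt _ (BB_pos n W)) hi (x_lt n W q hq)).2.2.1

theorem rr_rr (n W i q : ℕ) (hi : i < n) (hq : q < LL n W) :
    rr n W (jj n W q) (rr n W i q) = q := by
  have h1 := rr_mod n W i q hq
  have h2 := rr_div n W i q hi hq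
  have h3 := q_eq n W q
  show (rr n W i q % BB n W * n + jj n W q) * BB n W + rr n W i q / (BB n W * n) = q
  rw [h1, h2]
  exact h3.symm

end LibMC75
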