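import Pool.Agent.LibMC75.Basic
import Pool.Agent.LibMC75.P1
/-!
ROW [MC N1] (MEDIUM).  One man's token runs through the first Q contracts of his list.
PLAN.  Induction on Q (do NOT unfold `blk`; use `run_blk` of Basic and List.range_succ / run_append).  pass (Q+1) = pass Q ++ blk Q.
For the third part (frame) the induction is direct from run_blk.  For the step of parts 1, 2: let s' = run (pass Q) s; the wires wE, wN of Q are
untouched by pass Q (part 3: they differ from the wE, wN, wY, wA of q < Q: names p ++ [t, q] differ), and so is wY of Q: for q < Q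
(jj q, rr i q) ≠ (jj Q, rr i Q), because rr (jj q) (rr i q) = q (rr_rr).  Then run_blk gives the value of wA: acc i Q && (Y .. || !act i Q)
= acc i (Q+1), of wY Q, and all wY q (q < Q) are unchanged.
-/
namespace LibMC75

private theorem pass_succ (n W : ℕ) (p : List ℕ) (t i Q : ℕ) :
    pass n W p t i (Q + 1) = pass n W p t i Q ++ blk n W p t i Q := by
  unfold pass
  rw [List.range_succ, List.flatMap_append]
  simp

private theorem acc_succ (n W : ℕ) (v : ℕ → ℕ → ℕ) (Y : ℕ → ℕ → Bool) (i Q : ℕ) :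
    acc n W v Y i (Q + 1) =
      (acc n W v Y i Q && (Y (jj n W Q) (rr n W i Q) || !act n W v i Q)) := by
  unfold acc
  rw [Bool.eq_iff_iff]
  simp only [Bool.and_eq_true, Bool.or_eq_true, decide_eq_true_eq, Bool.not_eq_true']
  constructor
  · intro h
    exact ⟨fun q hq => h q (Nat.lt_succ_of_lt hq), h Q (Nat.lt_succ_self Q)⟩
  · rintro ⟨h1, h2⟩ q hq
    rcases Nat.lt_succ_iff_lt_or_eq.mp hq with h | h
    · exact h1 q h
    · subst h
      exact h2

theorem pass_frame (n W : ℕ) (p : List ℕ) (t i Q : ℕ) (s : Wire → Bool) (w : Wire)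
    (hA : w ≠ wA p t i)
    (h : ∀ q < Q, w ≠ wE n W p t i q ∧ w ≠ wN n W p t i q ∧
      w ≠ wY p (jj n W q) (rr n W i q + (TT n W - t))) :
    run (pass n W p t i Q) s w = s w := by
  apply run_frame
  intro g hg
  unfold pass at hg
  rw [List.mem_flatMap] at hg
  obtain ⟨q, hq, hg⟩ := hg
  have hq' : q < Q := List.mem_range.mp hq
  obtain ⟨h1, h2, h3⟩ := h q hq'
  unfold blk at hg
  simp only [List.mem_cons, List.not_mem_nil, or_false] at hg
  rcases hg with hg | hg | hg | hg
  · rw [hg]; exact ⟨hA.symm, h1.symm⟩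
  · rw [hg]; exact ⟨hA.symm, h3.symm⟩
  · rw [hg]; exact ⟨h1.symm, h2.symm⟩
  · rw [hg]; exact ⟨h1.symm, hA.symm⟩

private theorem wE_ne_wA (n W : ℕ) (p : List ℕ) (t i q : ℕ) : wE n W p t i q ≠ wA p t i := by
  simp [wA, wE]

private theorem wN_ne_wA (n W : ℕ) (p : List ℕ) (t i q : ℕ) : wN n W p t i q ≠ wA p t i := by
  simp [wA, wN]

private theorem wY_ne_wA (p : List ℕ) (t i j D : ℕ) : wY p j D ≠ wA p t i := by
  simp [wA, wY]

private theorem wY_ne_wE (n W : ℕ) (p : List ℕ) (t i q j D : ℕ) : wY p j D ≠ wE n W p t i q := by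
  simp [wE, wY]

private theorem wY_ne_wN (n W : ℕ) (p : List ℕ) (t i q j D : ℕ) : wY p j D ≠ wN n W p t i q := by
  simp [wN, wY]

private theorem wE_ne_wN (n W : ℕ) (p : List ℕ) (t i q q' : ℕ) :
    wE n W p t i q ≠ wN n W p t i q' := by
  simp [wN, wE]

private theorem wE_ne_wE (n W : ℕ) (p : List ℕ) (t i q q' : ℕ) (h : q ≠ q') :
    wE n W p t i q ≠ wE n W p t i q' := by
  intro he
  unfold wE at he
  injection he with h1 h2 h3 h4
  have h5 := List.append_cancel_left h4
  simp only [List.cons.injEq, and_true, true_and] at h5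
  exact h h5

private theorem wN_ne_wN (n W : ℕ) (p : List ℕ) (t i q q' : ℕ) (h : q ≠ q') :
    wN n W p t i q ≠ wN n W p t i q' := by
  intro he
  unfold wN at he
  injection he with h1 h2 h3 h4
  have h5 := List.append_cancel_left h4
  simp only [List.cons.injEq, and_true, true_and] at h5
  exact h h5

private theorem wY_ne_wY (n W : ℕ) (p : List ℕ) (t i q q' : ℕ) (hi : i < n) (hq : q < LL n W)
    (hq' : q' < LL n W) (h : q ≠ q') :
    wY p (jj n W q) (rr n W i q + (TT n W - t)) ≠
      wY p (jj n W q') (rr n W i q' + (TT n W - t)) := by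
  intro he
  unfold wY at he
  injection he with h4
  have h5 := List.append_cancel_left h4
  simp only [List.cons.injEq, and_true] at h5
  obtain ⟨h6, h7⟩ := h5
  have h8 : rr n W i q = rr n W i q' := Nat.add_right_cancel h7
  apply h
  rw [← rr_rr n W i q hi hq, ← rr_rr n W i q' hi hq', h6, h8]

theorem pass_spec (n W : ℕ) (v : ℕ → ℕ → ℕ) (p : List ℕ) (t i Q : ℕ) (hi : i < n)
    (hQ : Q ≤ LL n W) (s : Wire → Bool) (Y : ℕ → ℕ → Bool) (hA : s (wA p t i) = true)
    (hE : ∀ q < Q, s (wE n W p t i q) = act n W v i q)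
    (hN : ∀ q < Q, s (wN n W p t i q) = !act n W v i q)
    (hY : ∀ q < Q, s (wY p (jj n W q) (rr n W i q + (TT n W - t))) =
      Y (jj n W q) (rr n W i q)) :
    run (pass n W p t i Q) s (wA p t i) = acc n W v Y i Q ∧
    ∀ q < Q, run (pass n W p t i Q) s (wY p (jj n W q) (rr n W i q + (TT n W - t))) =
      (Y (jj n W q) (rr n W i q) || (acc n W v Y i q && act n W v i q)) := by
  induction Q with
  | zero =>
    refine ⟨?_, fun q hq => absurd hq (Nat.not_lt_zero q)⟩
    have h1 : pass n W p t i 0 = [] := by simp [pass]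
    rw [h1, run_nil, hA]
    simp [acc]
  | succ Q ih =>
    have hQ' : Q < LL n W := hQ
    obtain ⟨ih1, ih2⟩ := ih hQ'.le (fun q hq => hE q (Nat.lt_succ_of_lt hq))
      (fun q hq => hN q (Nat.lt_succ_of_lt hq)) (fun q hq => hY q (Nat.lt_succ_of_lt hq))
    -- the wires of `Q` are untouched by the first `Q` blocks
    have fE : run (pass n W p t i Q) s (wE n W p t i Q) = act n W v i Q := by
      rw [pass_frame n W p t i Q s _ (wE_ne_wA n W p t i Q)
        (fun q hq => ⟨wE_ne_wE n W p t i Q q (Nat.ne_of_gt hq), wE_ne_wN n W p t i Q q,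
          (wY_ne_wE n W p t i Q _ _).symm⟩)]
      exact hE Q (Nat.lt_succ_self Q)
    have fN : run (pass n W p t i Q) s (wN n W p t i Q) = !act n W v i Q := by
      rw [pass_frame n W p t i Q s _ (wN_ne_wA n W p t i Q)
        (fun q hq => ⟨(wE_ne_wN n W p t i q Q).symm, wN_ne_wN n W p t i Q q (Nat.ne_of_gt hq),
          (wY_ne_wN n W p t i Q _ _).symm⟩)]
      exact hN Q (Nat.lt_succ_self Q)
    have fY : run (pass n W p t i Q) s (wY p (jj n W Q) (rr n W i Q + (TT n W - t))) =
        Y (jj n W Q) (rr n W i Q) := by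
      rw [pass_frame n W p t i Q s _ (wY_ne_wA p t i _ _)
        (fun q hq => ⟨wY_ne_wE n W p t i q _ _, wY_ne_wN n W p t i q _ _,
          wY_ne_wY n W p t i Q q hi hQ' (hq.trans hQ') (Nat.ne_of_gt hq)⟩)]
      exact hY Q (Nat.lt_succ_self Q)
    rw [pass_succ, run_append]
    constructor
    · rw [run_blk n W p t i Q _ (act n W v i Q) fE fN _ (wE_ne_wA n W p t i Q).symm
        (wN_ne_wA n W p t i Q).symm, if_pos rfl, ih1, fY, acc_succ]
    · intro q hq
      rw [run_blk n W p t i Q _ (act n W v i Q) fE fN _ (wY_ne_wE n W p t i Q _ _)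
        (wY_ne_wN n W p t i Q _ _), if_neg (wY_ne_wA p t i _ _)]
      rcases Nat.lt_succ_iff_lt_or_eq.mp hq with h | h
      · rw [if_neg (wY_ne_wY n W p t i q Q hi (h.trans hQ') hQ' (Nat.ne_of_lt h))]
        exact ih2 q h
      · subst h
        rw [if_pos rfl, fY, ih1]

end LibMC75
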