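import Pool.Agent.LibMC75.N1
/-!
ROW [MC N2] (MEDIUM).  One round, and all rounds.
PLAN.  good_zero: direct from hs (all wires of the copy p start with their source bit; wE = .pos i j k _, so init = decide (v i j = k) = act).
good_round: run over the men with `run_range_induction` and the predicate P i0 s := 'men < i0 have passed':
(1) ∀ j < n, ∀ r < LL, s (wY p j (r + (TT - t))) = if jj r < i0 then outY (Yt t) j r else Yt t j r   (jj n W r is the MAN of the contract at position r of woman j);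
(2) ∀ j < n, ∀ D < TT - t, s (wY p j D) = false;
(3) ∀ i, i0 ≤ i → i < n → s (wA p t i) = true, and ∀ t' > t, ∀ i < n, s (wA p t' i) = true;
(4), (5) the same for wE, wN (for t' = t only i ≥ i0; for t' > t all).
Step for man i0: pass_spec with Y := Yt t and Q := LL (the wire of (jj q, rr i0 q) has jj (rr i0 q) = i0, not < i0, so it still carries Yt t) and
pass_frame for all other wires.  Conversely each (j, r) with jj r = i0 is (jj q, rr i0 q) for q := rr j r < LL (jj_rr, rr_rr with the roles exchanged).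
At i0 = n: (1) says s (wY p j (r + (TT - t))) = outY (Yt t) j r.  For Good (t+1), t < TT: wY p j ((r+1) + (TT - (t+1))) = wY p j (r + (TT - t)) and
Yt (t+1) j (r+1) = outY (Yt t) j r (rfl); position r = 0: D = TT - (t+1) < TT - t: false = Yt (t+1) j 0.
good_net: run_range_induction over t.
-/
namespace LibMC75

/-- the state before round `t` of the copy `p` -/
def Good (n W : ℕ) (v : ℕ → ℕ → ℕ) (p : List ℕ) (t : ℕ) (s : Wire → Bool) : Prop :=
  (∀ j < n, ∀ r < LL n W, s (wY p j (r + (TT n W - t))) = Yt n W v t j r) ∧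
  (∀ j < n, ∀ D < TT n W - t, s (wY p j D) = false) ∧
  (∀ t', t ≤ t' → ∀ i < n, s (wA p t' i) = true) ∧
  (∀ t', t ≤ t' → ∀ i < n, ∀ q < LL n W, s (wE n W p t' i q) = act n W v i q) ∧
  (∀ t', t ≤ t' → ∀ i < n, ∀ q < LL n W, s (wN n W p t' i q) = !act n W v i q)

theorem good_zero (n W : ℕ) (v : ℕ → ℕ → ℕ) (p : List ℕ) (s : Wire → Bool)
    (h1 : ∀ l, s (.zero (p ++ l)) = false) (h2 : ∀ l, s (.one (p ++ l)) = true)
    (h3 : ∀ i j k l, s (.pos i j k (p ++ l)) = decide (v i j = k))
    (h4 : ∀ i j k l, s (.neg i j k (p ++ l)) = !decide (v i j = k)) :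
    Good n W v p 0 s :=
  ⟨fun _ _ _ _ => h1 _, fun _ _ _ _ => h1 _, fun _ _ _ _ => h2 _,
    fun _ _ _ _ _ _ => h3 _ _ _ _, fun _ _ _ _ _ _ => h4 _ _ _ _⟩

private lemma yy_ne {p : List ℕ} {j D j' D' : ℕ} (h : ¬(j = j' ∧ D = D')) :
    wY p j D ≠ wY p j' D' := by
  simp only [wY, ne_eq, Wire.zero.injEq, List.append_cancel_left_eq, List.cons.injEq, and_true]
  exact h

private lemma aa_ne {p : List ℕ} {t i t' i' : ℕ} (h : ¬(t = t' ∧ i = i')) :
    wA p t i ≠ wA p t' i' := by
  simp only [wA, ne_eq, Wire.one.injEq, List.append_cancel_left_eq, List.cons.injEq, and_true]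
  exact h

private lemma ee_ne {n W : ℕ} {p : List ℕ} {t i q t' i' q' : ℕ} (h : ¬(t = t' ∧ i = i')) :
    wE n W p t i q ≠ wE n W p t' i' q' := by
  simp only [wE, ne_eq, Wire.pos.injEq, List.append_cancel_left_eq, List.cons.injEq, and_true]
  rintro ⟨h1, -, -, h2, -⟩
  exact h ⟨h2, h1⟩

private lemma nn_ne {n W : ℕ} {p : List ℕ} {t i q t' i' q' : ℕ} (h : ¬(t = t' ∧ i = i')) :
    wN n W p t i q ≠ wN n W p t' i' q' := by
  simp only [wN, ne_eq, Wire.neg.injEq, List.append_cancel_left_eq, List.cons.injEq, and_true]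
  rintro ⟨h1, -, -, h2, -⟩
  exact h ⟨h2, h1⟩

/-- the state when the men `< i0` have passed in round `t` -/
private def Mid (n W : ℕ) (v : ℕ → ℕ → ℕ) (p : List ℕ) (t i0 : ℕ) (s : Wire → Bool) : Prop :=
  (∀ j < n, ∀ r < LL n W, s (wY p j (r + (TT n W - t))) =
    if jj n W r < i0 then outY n W v (Yt n W v t) j r else Yt n W v t j r) ∧
  (∀ j < n, ∀ D < TT n W - t, s (wY p j D) = false) ∧
  (∀ t' i, (t < t' ∨ (t = t' ∧ i0 ≤ i)) → i < n → s (wA p t' i) = true) ∧
  (∀ t' i, (t < t' ∨ (t = t' ∧ i0 ≤ i)) → i < n → ∀ q < LL n W,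
    s (wE n W p t' i q) = act n W v i q) ∧
  (∀ t' i, (t < t' ∨ (t = t' ∧ i0 ≤ i)) → i < n → ∀ q < LL n W,
    s (wN n W p t' i q) = !act n W v i q)

private lemma mid_step (n W : ℕ) (v : ℕ → ℕ → ℕ) (p : List ℕ) (t i0 : ℕ) (hi0 : i0 < n)
    (s : Wire → Bool) (h : Mid n W v p t i0 s) :
    Mid n W v p t (i0 + 1) (run (pass n W p t i0 (LL n W)) s) := by
  obtain ⟨h1, h2, h3, h4, h5⟩ := h
  have hn : 0 < n := lt_of_le_of_lt (Nat.zero_le _) hi0
  obtain ⟨-, key⟩ := pass_spec n W v p t i0 (LL n W) hi0 le_rfl s (Yt n W v t)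
    (h3 t i0 (Or.inr ⟨rfl, le_rfl⟩) hi0) (h4 t i0 (Or.inr ⟨rfl, le_rfl⟩) hi0)
    (h5 t i0 (Or.inr ⟨rfl, le_rfl⟩) hi0) (by
      intro q hq
      rw [h1 _ (jj_lt n W q hn) _ (rr_lt n W i0 q hi0 hq), jj_rr n W i0 q hi0 hq, if_neg (lt_irrefl _)])
  refine ⟨?_, ?_, ?_, ?_, ?_⟩
  · intro j hj r hr
    by_cases hjr : jj n W r = i0
    · have hq := rr_lt n W j r hj hr
      have k := key _ hq
      rw [jj_rr n W j r hj hr] at k
      have e : rr n W i0 (rr n W j r) = r := by
        rw [← hjr]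
        exact rr_rr n W j r hj hr
      rw [e] at k
      rw [k, if_pos (by omega)]
      unfold outY
      rw [hjr]
    · rw [pass_frame]
      · rw [h1 j hj r hr]
        by_cases h6 : jj n W r < i0
        · rw [if_pos h6, if_pos (by omega)]
        · rw [if_neg h6, if_neg (by omega)]
      · simp [wY, wA]
      · intro q hq
        refine ⟨by simp [wY, wE], by simp [wY, wN], yy_ne ?_⟩
        rintro ⟨e1, e2⟩
        have e3 : r = rr n W i0 q := by omega
        exact hjr (by rw [e3, jj_rr n W i0 q hi0 hq])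
  · intro j hj D hD
    rw [pass_frame]
    · exact h2 j hj D hD
    · simp [wY, wA]
    · intro q hq
      refine ⟨by simp [wY, wE], by simp [wY, wN], yy_ne ?_⟩
      rintro ⟨e1, e2⟩
      omega
  · intro t' i hti hi
    rw [pass_frame]
    · exact h3 t' i (hti.imp_right fun hh => ⟨hh.1, by omega⟩) hi
    · apply aa_ne
      rintro ⟨e1, e2⟩
      omega
    · intro q hq
      exact ⟨by simp [wA, wE], by simp [wA, wN], by simp [wA, wY]⟩
  · intro t' i hti hi q' hq'
    rw [pass_frame]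
    · exact h4 t' i (hti.imp_right fun hh => ⟨hh.1, by omega⟩) hi q' hq'
    · simp [wE, wA]
    · intro q hq
      refine ⟨ee_ne ?_, by simp [wE, wN], by simp [wE, wY]⟩
      rintro ⟨e1, e2⟩
      omega
  · intro t' i hti hi q' hq'
    rw [pass_frame]
    · exact h5 t' i (hti.imp_right fun hh => ⟨hh.1, by omega⟩) hi q' hq'
    · simp [wN, wA]
    · intro q hq
      refine ⟨by simp [wN, wE], nn_ne ?_, by simp [wN, wY]⟩
      rintro ⟨e1, e2⟩
      omega

theorem good_round (n W : ℕ) (v : ℕ → ℕ → ℕ) (p : List ℕ) (t : ℕ) (ht : t < TT n W)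
    (s : Wire → Bool) (h : Good n W v p t s) :
    Good n W v p (t + 1)
      (run ((List.range n).flatMap fun i => pass n W p t i (LL n W)) s) := by
  obtain ⟨h1, h2, h3, h4, h5⟩ := h
  have hm : Mid n W v p t 0 s := by
    refine ⟨?_, h2, ?_, ?_, ?_⟩
    · intro j hj r hr
      rw [if_neg (Nat.not_lt_zero _)]
      exact h1 j hj r hr
    · intro t' i hti hi
      exact h3 t' (by omega) i hi
    · intro t' i hti hi
      exact h4 t' (by omega) i hi
    · intro t' i hti hi
      exact h5 t' (by omega) i hi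
  have hM := run_range_induction (fun i => pass n W p t i (LL n W)) (Mid n W v p t) n s hm
    (fun i0 hi0 s' hs' => mid_step n W v p t i0 hi0 s' hs')
  obtain ⟨m1, m2, m3, m4, m5⟩ := hM
  refine ⟨?_, ?_, ?_, ?_, ?_⟩
  · intro j hj r hr
    cases r with
    | zero =>
      exact m2 j hj _ (by omega)
    | succ r =>
      have e : r + 1 + (TT n W - (t + 1)) = r + (TT n W - t) := by omega
      rw [e, m1 j hj r (by omega), if_pos (jj_lt n W r (by omega))]
      rfl
  · intro j hj D hD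
    exact m2 j hj D (by omega)
  · intro t' ht' i hi
    exact m3 t' i (Or.inl (by omega)) hi
  · intro t' ht' i hi
    exact m4 t' i (Or.inl (by omega)) hi
  · intro t' ht' i hi
    exact m5 t' i (Or.inl (by omega)) hi

theorem good_net (n W : ℕ) (v : ℕ → ℕ → ℕ) (p : List ℕ) (s : Wire → Bool)
    (h : Good n W v p 0 s) : Good n W v p (TT n W) (run (net n W p (TT n W)) s) :=
  run_range_induction _ (Good n W v p) (TT n W) s h
    (fun t ht s' hs' => good_round n W v p t ht s' hs')

end LibMC75
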