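import Pool.Agent.LibMC75.Defs

/-!
# The networks (semantic level)
-/

namespace LibMC75

/-- Number of price levels. -/
def BB (n W : ℕ) : ℕ := (n + 1) * W + 1

/-- Number of positions in a list. -/
def LL (n W : ℕ) : ℕ := BB n W * n * BB n W

/-- Number of rounds. -/
def TT (n W : ℕ) : ℕ := n * LL n W

/-- The partner at position `q` of a list. -/
def jj (n W q : ℕ) : ℕ := (q / BB n W) % n

/-- The position, in the list of the partner `jj n W q`, of the contract at position `q` of the
list of `i`. -/
def rr (n W i q : ℕ) : ℕ := ((q % BB n W) * n + i) * BB n W + q / (BB n W * n)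

/-- price + utility of the contract at position `q` of a list. -/
def zz (n W q : ℕ) : ℕ := 2 * (BB n W - 1) - q / (BB n W * n) - q % BB n W

/-- the number `k` such that the literal of the contract is `[v i j = k]`. -/
def kap (n W q : ℕ) : ℕ := zz n W q / (n + 1) + (W + 1) * (zz n W q % (n + 1))

/-- the wires -/
def wA (p : List ℕ) (t i : ℕ) : Wire := .one (p ++ [t, i])
def wE (n W : ℕ) (p : List ℕ) (t i q : ℕ) : Wire := .pos i (jj n W q) (kap n W q) (p ++ [t, q])
def wN (n W : ℕ) (p : List ℕ) (t i q : ℕ) : Wire := .neg i (jj n W q) (kap n W q) (p ++ [t, q])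
def wY (p : List ℕ) (j D : ℕ) : Wire := .zero (p ++ [j, D])

/-- the four comparators of one contract, in round `t` -/
def blk (n W : ℕ) (p : List ℕ) (t i q : ℕ) : List (Wire × Wire) :=
  [(wA p t i, wE n W p t i q),
   (wA p t i, wY p (jj n W q) (rr n W i q + (TT n W - t))),
   (wE n W p t i q, wN n W p t i q),
   (wE n W p t i q, wA p t i)]

/-- the first `Q` contracts of the list of `i`, in round `t` -/
def pass (n W : ℕ) (p : List ℕ) (t i Q : ℕ) : List (Wire × Wire) :=
  (List.range Q).flatMap fun q => blk n W p t i q

/-- `T` rounds -/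
def net (n W : ℕ) (p : List ℕ) (T : ℕ) : List (Wire × Wire) :=
  (List.range T).flatMap fun t => (List.range n).flatMap fun i => pass n W p t i (LL n W)

/-- exchange the two constants and the two kinds of literals -/
def Wire.flip : Wire → Wire
  | .zero l => .one l
  | .one l => .zero l
  | .pos i j k l => .neg i j k l
  | .neg i j k l => .pos i j k l

/-- the dual circuit -/
def dual (gs : List (Wire × Wire)) : List (Wire × Wire) := gs.map fun g => (g.2.flip, g.1.flip)

/-- the wire which carries the result of the gadget -/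
def tok (n W i q m : ℕ) : Wire := wA [0, i, q, m] (TT n W) i

/-- the gadget that computes the contract at position `q` of the list of `i` is selected -/
def gad (n W i q m : ℕ) : List (Wire × Wire) :=
  net n W [0, i, q, m] (TT n W) ++ (pass n W [0, i, q, m] (TT n W) i q ++
    (dual (net n W [1, i, q, m] (TT n W)) ++
      [(tok n W i q m, .pos i (jj n W q) (kap n W q) [2, i, q, m]),
       (tok n W i q m, .one [1, i, q, m, jj n W q, rr n W i q])]))

/-- the decision circuit; its output wire is `.zero [K-1]` -/
def dec (n W K : ℕ) : List (Wire × Wire) :=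
  (List.range n).flatMap fun i => (List.range (LL n W)).flatMap fun q =>
    (List.range (kap n W q)).flatMap fun m =>
      gad n W i q m ++ (List.range K).flatMap fun h => [(tok n W i q m, Wire.zero [h])]

/-- the search circuit; its output wires are `.zero [i, j]` -/
def srch (n W : ℕ) : List (Wire × Wire) :=
  (List.range n).flatMap fun i => (List.range (LL n W)).flatMap fun q =>
      gad n W i q 0 ++ [(tok n W i q 0, Wire.zero [i, jj n W q])]

/-! ### the mathematics -/

/-- the contract at position `q` of the list of `i` is active -/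
def act (n W : ℕ) (v : ℕ → ℕ → ℕ) (i q : ℕ) : Bool := decide (v i (jj n W q) = kap n W q)

/-- the token of man `i` arrives at position `q` of his list with value 1, if the women's bits
are `Y` -/
def acc (n W : ℕ) (v : ℕ → ℕ → ℕ) (Y : ℕ → ℕ → Bool) (i q : ℕ) : Bool :=
  decide (∀ q' < q, Y (jj n W q') (rr n W i q') = true ∨ act n W v i q' = false)

/-- the bit after the contract at position `r` of woman `j`'s list -/
def outY (n W : ℕ) (v : ℕ → ℕ → ℕ) (Y : ℕ → ℕ → Bool) (j r : ℕ) : Bool :=
  Y j r || (acc n W v Y (jj n W r) (rr n W j r) && act n W v (jj n W r) (rr n W j r))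

/-- one round -/
def FF (n W : ℕ) (v : ℕ → ℕ → ℕ) (Y : ℕ → ℕ → Bool) (j r : ℕ) : Bool :=
  match r with
  | 0 => false
  | r + 1 => outY n W v Y j r

/-- the women's bits before round `t` -/
def Yt (n W : ℕ) (v : ℕ → ℕ → ℕ) : ℕ → ℕ → ℕ → Bool
  | 0 => fun _ _ => false
  | t + 1 => FF n W v (Yt n W v t)

/-- the contract at position `q` of the list of `i` is selected -/
def sel (n W : ℕ) (v : ℕ → ℕ → ℕ) (i q : ℕ) : Bool :=
  act n W v i q && (acc n W v (Yt n W v (TT n W)) i q && !(Yt n W v (TT n W) (jj n W q) (rr n W i q)))

/-- the matching found -/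
def MM (n W : ℕ) (v : ℕ → ℕ → ℕ) : Finset (ℕ × ℕ) :=
  (Finset.range n ×ˢ Finset.range n).filter fun e =>
    ∃ q < LL n W, jj n W q = e.2 ∧ sel n W v e.1 q = true

end LibMC75
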