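import Pool.Agent.LibMC75.Defs
/-!
ROW [MC Q1] (SHORT/MEDIUM, ONLY MATHLIB).  A matching of weight ≥ n for a 0/1 weight is a perfect matching, i.e. a permutation.
PLAN.  (←) M := image of i ↦ (i, σ i) on Fin n; weight = n.  (→) weight ≤ card M ≤ n (first coordinates are distinct and < n), so card M = n and every e ∈ M has
E e.1 e.2; the first coordinates of M fill range n (Finset.eq_of_subset_of_card_le), so for every i : Fin n there is a (unique) j with (i,j) ∈ M; j < n; the map is
injective, hence bijective (Finite.injective_iff_bijective / Equiv.ofBijective).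
-/
namespace LibMC75

theorem perfect_iff (n : ℕ) (E : ℕ → ℕ → Bool) :
    (∃ M, IsMatching n M ∧ n ≤ weight (fun i j => if E i j then 1 else 0) M) ↔
    ∃ σ : Equiv.Perm (Fin n), ∀ i : Fin n, E i (σ i) = true := by
  constructor
  · rintro ⟨M, ⟨hb, h1, h2⟩, hw⟩
    have himg : M.image Prod.fst ⊆ Finset.range n := by
      intro x hx
      obtain ⟨e, he, rfl⟩ := Finset.mem_image.mp hx
      exact Finset.mem_range.mpr (hb e he).1
    have hcard : (M.image Prod.fst).card = M.card :=
      Finset.card_image_of_injOn fun e he f hf hef => h1 e he f hf hef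
    have hle : M.card ≤ n := by
      have := Finset.card_le_card himg
      rwa [hcard, Finset.card_range] at this
    have hterm : ∀ e ∈ M, (if E e.1 e.2 then 1 else 0 : ℕ) ≤ 1 := by
      intro e _
      split_ifs <;> omega
    have hwle : weight (fun i j => if E i j then 1 else 0) M ≤ M.card := by
      unfold weight
      calc ∑ e ∈ M, (if E e.1 e.2 then 1 else 0 : ℕ) ≤ ∑ _e ∈ M, 1 := Finset.sum_le_sum hterm
        _ = M.card := by simp
    have hMn : M.card = n := le_antisymm hle (hw.trans hwle)
    have hall : ∀ e ∈ M, E e.1 e.2 = true := by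
      intro e he
      by_contra hne
      have hlt : weight (fun i j => if E i j then 1 else 0) M < M.card := by
        unfold weight
        calc ∑ e ∈ M, (if E e.1 e.2 then 1 else 0 : ℕ) < ∑ _e ∈ M, 1 :=
              Finset.sum_lt_sum hterm ⟨e, he, by simp [hne]⟩
          _ = M.card := by simp
      omega
    have himg' : M.image Prod.fst = Finset.range n := by
      apply Finset.eq_of_subset_of_card_le himg
      rw [hcard, Finset.card_range]
      exact hMn.ge
    have hex : ∀ i : Fin n, ∃ e ∈ M, e.1 = (i : ℕ) := by
      intro i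
      have hi : (i : ℕ) ∈ M.image Prod.fst := by
        rw [himg']
        exact Finset.mem_range.mpr i.2
      obtain ⟨e, he, hei⟩ := Finset.mem_image.mp hi
      exact ⟨e, he, hei⟩
    choose g hgM hg1 using hex
    have hinj : Function.Injective fun i : Fin n => (⟨(g i).2, (hb (g i) (hgM i)).2⟩ : Fin n) := by
      intro i j hij
      have h3 : (g i).2 = (g j).2 := by simpa using hij
      have h4 := h2 (g i) (hgM i) (g j) (hgM j) h3
      apply Fin.ext
      rw [← hg1 i, ← hg1 j, h4]
    refine ⟨Equiv.ofBijective _ (Finite.injective_iff_bijective.mp hinj), fun i => ?_⟩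
    have h5 := hall (g i) (hgM i)
    rw [hg1 i] at h5
    exact h5
  · rintro ⟨σ, hσ⟩
    have hinj : Function.Injective fun i : Fin n => ((i : ℕ), ((σ i : Fin n) : ℕ)) := by
      intro i j hij
      apply Fin.ext
      exact (Prod.mk.inj hij).1
    refine ⟨Finset.univ.image fun i : Fin n => ((i : ℕ), ((σ i : Fin n) : ℕ)), ⟨?_, ?_, ?_⟩, ?_⟩
    · intro e he
      obtain ⟨i, -, rfl⟩ := Finset.mem_image.mp he
      exact ⟨i.2, (σ i).2⟩
    · intro e he f hf hef
      obtain ⟨i, -, rfl⟩ := Finset.mem_image.mp he
      obtain ⟨j, -, rfl⟩ := Finset.mem_image.mp hf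
      have : i = j := Fin.ext hef
      rw [this]
    · intro e he f hf hef
      obtain ⟨i, -, rfl⟩ := Finset.mem_image.mp he
      obtain ⟨j, -, rfl⟩ := Finset.mem_image.mp hf
      have : σ i = σ j := Fin.ext hef
      rw [σ.injective this]
    · unfold weight
      rw [Finset.sum_image fun i _ j _ h => hinj h]
      simp [hσ]

end LibMC75
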