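import Pool.Agent.LibMC75.G1
/-!
ROW [MC S1] (MEDIUM).  The search circuit.
PLAN.  Two nested run_range_induction (i, q) with the predicate: for all i0, j0: s (.zero [i0, j0]) = true ↔ ∃ a treated (i0, q) with jj q = j0 and sel i0 q; and every wire whose name
does not begin with [c, i, q, 0] for a treated (i, q), and which is not of the form .zero [a, b], still carries its init bit (so gad_spec applies to the next gadget).
The step: gad_spec, gad_frame, and one comparator (tok, .zero [i, jj q]): OR on .zero [i, jj q].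
-/
namespace LibMC75

private def SInv (n W : ℕ) (v : ℕ → ℕ → ℕ) (D : ℕ → ℕ → Prop) (s : Wire → Bool) : Prop :=
  (∀ i j, s (.zero [i, j]) = true ↔ ∃ q, D i q ∧ jj n W q = j ∧ sel n W v i q = true) ∧
  (∀ w : Wire, (∀ a b, w ≠ .zero [a, b]) → (∀ c i q, D i q → w.pre.take 4 ≠ [c, i, q, 0]) →
    s w = w.init v)

private theorem SInv_congr {n W : ℕ} {v : ℕ → ℕ → ℕ} {D D' : ℕ → ℕ → Prop} {s : Wire → Bool}
    (h : SInv n W v D s) (hD : ∀ i q, D i q ↔ D' i q) : SInv n W v D' s := by
  have e : D = D' := by funext i q; exact propext (hD i q)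
  rw [← e]; exact h

private theorem SInv_step {n W : ℕ} {v : ℕ → ℕ → ℕ} {D : ℕ → ℕ → Prop} {s : Wire → Bool}
    (h : SInv n W v D s) {i q : ℕ} (hi : i < n) (hq : q < LL n W) (hD : ¬ D i q) :
    SInv n W v (fun i' q' => D i' q' ∨ (i' = i ∧ q' = q))
      (run (gad n W i q 0 ++ [(tok n W i q 0, Wire.zero [i, jj n W q])]) s) := by
  obtain ⟨ha, hb⟩ := h
  have htok : tok n W i q 0 = .one [0, i, q, 0, TT n W, i] := rfl
  have h1 : run (gad n W i q 0) s (tok n W i q 0) = sel n W v i q := by
    refine gad_spec n W v i q 0 hi hq s ?_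
    rintro w ⟨c, hc⟩
    refine hb w ?_ ?_
    · intro a b hw
      rw [hw] at hc
      simp [Wire.pre] at hc
    · intro c' i' q' hD' hc'
      rw [hc'] at hc
      simp only [List.cons.injEq, and_true] at hc
      obtain ⟨-, e1, e2⟩ := hc
      rw [e1, e2] at hD'
      exact hD hD'
  have h2 : ∀ a b, run (gad n W i q 0) s (.zero [a, b]) = s (.zero [a, b]) := by
    intro a b
    refine gad_frame n W i q 0 s _ ?_
    intro c hc
    simp [Wire.pre] at hc
  set s1 := run (gad n W i q 0) s with hs1
  have h3 : run (gad n W i q 0 ++ [(tok n W i q 0, Wire.zero [i, jj n W q])]) s =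
      step s1 (tok n W i q 0, Wire.zero [i, jj n W q]) := by
    rw [run_append, ← hs1]; rfl
  rw [h3]
  constructor
  · intro i' j'
    have e1 : (Wire.zero [i', j'] : Wire) ≠ tok n W i q 0 := by rw [htok]; simp
    by_cases hz : (Wire.zero [i', j'] : Wire) = Wire.zero [i, jj n W q]
    · have hz2 : i' = i ∧ j' = jj n W q := by simpa using hz
      obtain ⟨rfl, rfl⟩ := hz2
      have e2 : step s1 (tok n W i' q 0, Wire.zero [i', jj n W q]) (.zero [i', jj n W q]) =
          (s1 (tok n W i' q 0) || s1 (.zero [i', jj n W q])) := by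
        unfold step
        rw [if_neg e1, if_pos rfl]
      rw [e2, h1, h2, Bool.or_eq_true, ha]
      constructor
      · rintro (h | ⟨q', h4, h5, h6⟩)
        · exact ⟨q, Or.inr ⟨rfl, rfl⟩, rfl, h⟩
        · exact ⟨q', Or.inl h4, h5, h6⟩
      · rintro ⟨q', h4 | ⟨-, rfl⟩, h5, h6⟩
        · exact Or.inr ⟨q', h4, h5, h6⟩
        · exact Or.inl h6
    · have e2 : step s1 (tok n W i q 0, Wire.zero [i, jj n W q]) (.zero [i', j']) = s (.zero [i', j']) := by
        unfold step
        rw [if_neg e1, if_neg hz, h2]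
      rw [e2, ha]
      constructor
      · rintro ⟨q', h4, h5, h6⟩
        exact ⟨q', Or.inl h4, h5, h6⟩
      · rintro ⟨q', h4 | ⟨rfl, rfl⟩, h5, h6⟩
        · exact ⟨q', h4, h5, h6⟩
        · exact absurd (by rw [h5]) hz
  · intro w hw1 hw2
    have e1 : w ≠ tok n W i q 0 := by
      intro h
      refine hw2 0 i q (Or.inr ⟨rfl, rfl⟩) ?_
      rw [h, htok]; rfl
    have e2 : step s1 (tok n W i q 0, Wire.zero [i, jj n W q]) w = s1 w := by
      unfold step
      rw [if_neg e1, if_neg (hw1 _ _)]
    rw [e2, hs1, gad_frame n W i q 0 s w (fun c => hw2 c i q (Or.inr ⟨rfl, rfl⟩))]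
    exact hb w hw1 (fun c i' q' hD' => hw2 c i' q' (Or.inl hD'))

theorem srch_spec (n W : ℕ) (v : ℕ → ℕ → ℕ) (i j : ℕ) (hi : i < n) :
    run (srch n W) (Wire.init v) (.zero [i, j]) = true ↔
    ∃ q < LL n W, jj n W q = j ∧ sel n W v i q = true := by
  have main : SInv n W v (fun i' q' => i' < n ∧ q' < LL n W) (run (srch n W) (Wire.init v)) := by
    refine run_range_induction _ (fun k s => SInv n W v (fun i' q' => i' < k ∧ q' < LL n W) s) n _ ?_ ?_
    · constructor
      · intro i j
        constructor
        · intro h; simp [Wire.init] at h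
        · rintro ⟨q, ⟨h, -⟩, -⟩; omega
      · intro w _ _; rfl
    · intro k hk s hs
      have inner : SInv n W v (fun i' q' => (i' < k ∧ q' < LL n W) ∨ (i' = k ∧ q' < LL n W))
          (run ((List.range (LL n W)).flatMap fun q =>
            gad n W k q 0 ++ [(tok n W k q 0, Wire.zero [k, jj n W q])]) s) := by
        refine run_range_induction _ (fun q s => SInv n W v (fun i' q' => (i' < k ∧ q' < LL n W) ∨ (i' = k ∧ q' < q)) s)
          (LL n W) _ ?_ ?_
        · exact SInv_congr hs (by intro i' q'; constructor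
                                  · intro h; exact Or.inl h
                                  · rintro (h | ⟨-, h⟩)
                                    · exact h
                                    · omega)
        · intro q hq s hs
          exact SInv_congr (SInv_step hs hk hq (by omega)) (by intro i' q'; omega)
      exact SInv_congr inner (by intro i' q'; omega)
  rw [main.1]
  constructor
  · rintro ⟨q, ⟨-, h1⟩, h2, h3⟩
    exact ⟨q, h1, h2, h3⟩
  · rintro ⟨q, h1, h2, h3⟩
    exact ⟨q, ⟨hi, h1⟩, h2, h3⟩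

end LibMC75
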