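import Pool.Agent.LibMC75.Net

/-!
# The programs that print the circuits
-/

namespace LibMC75

open Ex

def eBB (n W : Ex) : Ex := add (mul (add n (const 1)) W) (const 1)
def eLL (n W : Ex) : Ex := mul (mul (eBB n W) n) (eBB n W)
def eTT (n W : Ex) : Ex := mul n (eLL n W)
def ejj (n W q : Ex) : Ex := mod (div q (eBB n W)) n
def err (n W i q : Ex) : Ex :=
  add (mul (add (mul (mod q (eBB n W)) n) i) (eBB n W)) (div q (mul (eBB n W) n))
def ezz (n W q : Ex) : Ex :=
  sub (sub (mul (const 2) (sub (eBB n W) (const 1))) (div q (mul (eBB n W) n)))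
    (mod q (eBB n W))
def ekap (n W q : Ex) : Ex :=
  add (div (ezz n W q) (add n (const 1)))
    (mul (add W (const 1)) (mod (ezz n W q) (add n (const 1))))

/-- the four comparators of one contract -/
def pBlk (n W : Ex) (p : List Ex) (t i q : Ex) : Prog :=
  .seq (.comp (.one (p ++ [t, i])) (.pos i (ejj n W q) (ekap n W q) (p ++ [t, q])))
    (.seq (.comp (.one (p ++ [t, i]))
        (.zero (p ++ [ejj n W q, add (err n W i q) (sub (eTT n W) t)])))
      (.seq (.comp (.pos i (ejj n W q) (ekap n W q) (p ++ [t, q]))
          (.neg i (ejj n W q) (ekap n W q) (p ++ [t, q])))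
        (.comp (.pos i (ejj n W q) (ekap n W q) (p ++ [t, q])) (.one (p ++ [t, i])))))

theorem pBlk_print (n W : Ex) (p : List Ex) (t i q : Ex) (env : List ℕ) :
    (pBlk n W p t i q).print env =
      blk (n.ev env) (W.ev env) (p.map (Ex.ev env)) (t.ev env) (i.ev env) (q.ev env) := by
  simp only [pBlk, Prog.print, WEx.ev, List.map_append, List.map_cons, List.map_nil,
    List.singleton_append]
  rfl

/-- all rounds; environment `m, q, i, n, W, ...` -/
def pNet (c : ℕ) : Prog :=
  .loop (eTT (var 3) (var 4)) (.loop (var 4) (.loop (eLL (var 5) (var 6))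
    (pBlk (var 6) (var 7) [const c, var 5, var 4, var 3] (var 2) (var 1) (var 0))))

theorem pNet_print (c m q i n W : ℕ) (env : List ℕ) :
    (pNet c).print (m :: q :: i :: n :: W :: env) = net n W [c, i, q, m] (TT n W) := by
  simp only [pNet, Prog.print, pBlk_print]
  rfl

/-- the beginning of the last round; environment `m, q, i, n, W, ...` -/
def pPass : Prog :=
  .loop (var 1) (pBlk (var 4) (var 5) [const 0, var 3, var 2, var 1]
    (eTT (var 4) (var 5)) (var 3) (var 0))

theorem pPass_print (m q i n W : ℕ) (env : List ℕ) :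
    pPass.print (m :: q :: i :: n :: W :: env) =
      pass n W [0, i, q, m] (TT n W) i q := by
  simp only [pPass, Prog.print, pBlk_print]
  rfl

def WEx.flip : WEx → WEx
  | .zero l => .one l
  | .one l => .zero l
  | .pos i j k l => .neg i j k l
  | .neg i j k l => .pos i j k l

theorem WEx.flip_ev (env : List ℕ) (a : WEx) : a.flip.ev env = (a.ev env).flip := by
  cases a <;> rfl

def Prog.dual : Prog → Prog
  | .skip => .skip
  | .comp a b => .comp b.flip a.flip
  | .seq P Q => .seq P.dual Q.dual
  | .loop b P => .loop b P.dual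

theorem Prog.dual_print (P : Prog) (env : List ℕ) :
    P.dual.print env = LibMC75.dual (P.print env) := by
  induction P generalizing env with
  | skip => rfl
  | comp a b => simp [Prog.dual, Prog.print, LibMC75.dual, WEx.flip_ev]
  | seq P Q ihP ihQ => simp [Prog.dual, Prog.print, LibMC75.dual, ihP, ihQ]
  | loop b P ih =>
    simp only [Prog.dual, Prog.print, ih, LibMC75.dual, List.map_flatMap]

/-- the gadget; environment `m, q, i, n, W, ...` -/
def pGad : Prog :=
  .seq (pNet 0) (.seq pPass (.seq (pNet 1).dual (.seq
    (.comp (.one [const 0, var 2, var 1, var 0, eTT (var 3) (var 4), var 2])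
      (.pos (var 2) (ejj (var 3) (var 4) (var 1)) (ekap (var 3) (var 4) (var 1))
        [const 2, var 2, var 1, var 0]))
    (.comp (.one [const 0, var 2, var 1, var 0, eTT (var 3) (var 4), var 2])
      (.one [const 1, var 2, var 1, var 0, ejj (var 3) (var 4) (var 1),
        err (var 3) (var 4) (var 2) (var 1)])))))

theorem pGad_print (m q i n W : ℕ) (env : List ℕ) :
    pGad.print (m :: q :: i :: n :: W :: env) = gad n W i q m := by
  simp only [pGad, Prog.print, pNet_print, pPass_print, Prog.dual_print]
  rfl

/-- prints the decision circuit; environment `n, W, K` -/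
def PD : Prog :=
  .loop (var 0) (.loop (eLL (var 1) (var 2)) (.loop (ekap (var 2) (var 3) (var 0))
    (.seq pGad (.loop (var 5)
      (.comp (.one [const 0, var 3, var 2, var 1, eTT (var 4) (var 5), var 3])
        (.zero [var 0]))))))

theorem PD_print (n W K : ℕ) : PD.print [n, W, K] = dec n W K := by
  simp only [PD, Prog.print, pGad_print]
  rfl

/-- prints the search circuit; environment `n, W` -/
def PS : Prog :=
  .loop (var 0) (.loop (eLL (var 1) (var 2)) (.loop (const 1)
    (.seq pGad
      (.comp (.one [const 0, var 2, var 1, var 0, eTT (var 3) (var 4), var 2])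
        (.zero [var 2, ejj (var 3) (var 4) (var 1)])))))

theorem PS_print (n W : ℕ) : PS.print [n, W] = srch n W := by
  simp only [PS, Prog.print, pGad_print]
  have h1 : ∀ env : List ℕ, (Ex.const 1).ev env = 1 := fun _ => rfl
  simp only [h1, List.range_one, List.flatMap_cons, List.flatMap_nil, List.append_nil,
    pGad_print]
  rfl

end LibMC75
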